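import Mathlib
import Pool.Agent.TH876.Loc
import Pool.Agent.W223.VD.Final

set_option autoImplicit false

/-!
# Vojta's inequality with discriminant term for rational divisors on the line: definitions and
statements of the parts
-/

namespace Pool.Agent.TH876.QR

open NumberField IsDedekindDomain Finset Polynomial IntermediateField
open Pool.Agent.H691R3 Pool.Agent.TH876.Loc
open Pool.Agent.H813R3.Voj (value rho mahler)

/-- the point `(u : w)` over `K` -/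
def pt (K : Type) [Field K] (P : ℤ × ℤ) : K × K := ((P.1 : K), (P.2 : K))

/-- the infinite places and the places above the primes of `S` -/
def Pls (K : Type) [Field K] [NumberField K] (S : Finset ℕ) : Set (Pl K) :=
  {v | ∀ u : Pr K, v = Sum.inr u → ∃ p ∈ S, (p : 𝓞 K) ∈ u.asIdeal}

/-- the sum of the local heights of `x` with respect to the points `P_j` at the places of `S` and
the infinite places -/
noncomputable def Tot {K : Type} [Field K] [NumberField K] {q : ℕ} (S : Finset ℕ)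
    (P : Fin q → ℤ × ℤ) (x : K) : ℝ :=
  ∑ᶠ v ∈ Pls K S, ∑ j, lam v (aff x) (pt K (P j))

/-- the number of places -/
def PlacesS : Prop := ∀ (K : Type) [Field K] [NumberField K] (S : Finset ℕ),
  (∀ p ∈ S, p.Prime) → (Pls K S).Finite ∧ (Pls K S).ncard ≤ Module.finrank ℚ K * (S.card + 1)

/-- at each place only one of the `P_j` is near -/
def NearS : Prop := ∀ (r q : ℕ) (P : Fin q → ℤ × ℤ), 1 ≤ q →
  (∀ i j, i ≠ j → (P i).1 * (P j).2 - (P j).1 * (P i).2 ≠ 0) → (∀ j, P j ≠ 0) →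
  ∃ c : ℝ, 0 ≤ c ∧ ∀ (K : Type) [Field K] [NumberField K], Module.finrank ℚ K = r →
    ∀ (T : Finset (Pl K)) (x : K), (∀ j, ((P j).1 : K) - x * ((P j).2 : K) ≠ 0) →
    ∃ J : Pl K → Fin q, ∑ v ∈ T, ∑ j, lam v (aff x) (pt K (P j)) ≤
      ∑ v ∈ T, lam v (aff x) (pt K (P (J v))) + c

/-- two points near the same points -/
def PairS : Prop := ∀ (K : Type) [Field K] [NumberField K] (T : Finset (Pl K)) (P : Pl K → K × K)
  (x y : K), x ≠ y → (∀ v ∈ T, P v ≠ 0) →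
  (∀ v ∈ T, (aff x).1 * (P v).2 - (aff x).2 * (P v).1 ≠ 0) →
  (∀ v ∈ T, (aff y).1 * (P v).2 - (aff y).2 * (P v).1 ≠ 0) →
  ∑ v ∈ T, min (lam v (aff x) (P v)) (lam v (aff y) (P v)) ≤
    hr (aff x) + hr (aff y) + 2 * Module.finrank ℚ K * Real.log 2

/-- the violators in a number field of degree `r`, uniformly in the field -/
def PerField : Prop := ∀ (r q : ℕ) (P : Fin q → ℤ × ℤ) (S : Finset ℕ) (κ c : ℝ), 1 ≤ q →
  (∀ i j, i ≠ j → (P i).1 * (P j).2 - (P j).1 * (P i).2 ≠ 0) → (∀ j, P j ≠ 0) →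
  (∀ p ∈ S, p.Prime) → 2 < κ → ∃ L₀ C : ℝ, 0 ≤ L₀ ∧ 0 ≤ C ∧
  ∀ (K : Type) [Field K] [NumberField K], Module.finrank ℚ K = r →
    ∀ (H : ℝ) (E : Finset K), 1 ≤ H →
    (∀ x ∈ E, (∀ j, ((P j).1 : K) - x * ((P j).2 : K) ≠ 0) ∧ L₀ ≤ hr (aff x) ∧
      hr (aff x) ≤ H ∧ κ * hr (aff x) ≤ Tot S P x + c) →
    (E.card : ℝ) ≤ C * (1 + Real.log H)

/-- the total sum of the local heights -/
def TotLe : Prop := ∀ (r q : ℕ) (P : Fin q → ℤ × ℤ) (S : Finset ℕ), (∀ j, P j ≠ 0) →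
  (∀ p ∈ S, p.Prime) → ∃ c : ℝ, 0 ≤ c ∧
  ∀ (K : Type) [Field K] [NumberField K], Module.finrank ℚ K = r →
    ∀ x : K, (∀ j, ((P j).1 : K) - x * ((P j).2 : K) ≠ 0) → Tot S P x ≤ q * hr (aff x) + c

/-- the radicals of the values and the local heights -/
def LinkS : Prop := ∀ (r q : ℕ) (P : Fin q → ℤ × ℤ) (S : Finset ℕ), 2 ≤ r →
  (∀ j, IsCoprime (P j).1 (P j).2) →
  (∀ i j, i ≠ j → (P i).1 * (P j).2 - (P j).1 * (P i).2 ≠ 0) →
  (∀ p ∈ S, p.Prime) → ∃ c : ℝ, 0 ≤ c ∧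
  ∀ (K : Type) [Field K] [NumberField K] (x : K) (f : ℤ[X]), ℚ⟮x⟯ = ⊤ → Irreducible f →
    f.natDegree = r → Module.finrank ℚ K = r → aeval x f = 0 →
    Real.log (∏ j, (rho (Pool.Agent.W223.VD.bad S P) (value f (P j)) : ℝ)) + Tot S P x ≤
      q * Real.log (mahler f) + c

/-- the exponent: with `m = min q (r + 1)`, it is the smaller of `α (q - κ)` and
`α (q (r + 1 - m) + m (q - κ)) / (q α + m)` -/
noncomputable def expo (α : ℝ) (r q : ℕ) (κ : ℝ) : ℝ :=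
  α * min (q - κ) ((q * (r + 1 - (min q (r + 1) : ℕ)) + (min q (r + 1) : ℕ) * (q - κ)) /
    (q * α + (min q (r + 1) : ℕ)))

/-- the violators of `m_S(D, x) ≤ κ h(x) + d(x) + c / r` -/
def Viol {q : ℕ} (S : Finset ℕ) (P : Fin q → ℤ × ℤ) (r : ℕ) (κ c B : ℝ) : Set ℂ :=
  {x | ∃ _ : NumberField ℚ⟮x⟯, ∃ f : ℤ[X], Irreducible f ∧ f.natDegree = r ∧ aeval x f = 0 ∧
    mahler f ≤ B ^ r ∧ κ * Real.log (mahler f) + r * Pool.Agent.W223.VD.logDisc x ≤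
      Tot S P (AdjoinSimple.gen ℚ x) + c}

/-- the count -/
def CountS : Prop := ∀ (r q : ℕ) (α : ℝ), 2 ≤ r → 3 ≤ q → 1 ≤ α →
  Pool.Agent.W223.VD.FieldExp r α → ∀ P : Fin q → ℤ × ℤ,
  (∀ j, IsCoprime (P j).1 (P j).2) →
  (∀ i j, i ≠ j → (P i).1 * (P j).2 - (P j).1 * (P i).2 ≠ 0) →
  ∀ S : Finset ℕ, (∀ p ∈ S, p.Prime) → ∀ κ c δ : ℝ, 2 < κ → κ ≤ q → 0 ≤ c → 0 < δ →
  ∃ C : ℝ, 0 < C ∧ ∀ B : ℝ, 1 ≤ B → (Viol S P r κ c B).Finite ∧
    ((Viol S P r κ c B).ncard : ℝ) ≤ C * B ^ ((r : ℝ) * expo α r q κ + δ)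

end Pool.Agent.TH876.QR
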