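import Mathlib
import Pool.Agent.TH876.QR.Def
import Pool.Agent.W469.CV.MH
import Pool.Agent.W221.ExcLow1
import Pool.Agent.W598.VD.TR

set_option autoImplicit false

/-!
# The count of all violators
-/

namespace Pool.Agent.TH876.QR

open NumberField IsDedekindDomain Finset Polynomial IntermediateField
open Pool.Agent.H691R3 Pool.Agent.TH876.Loc
open Pool.Agent.H813R3.Voj (value rho mahler)

/-- the data of a violator -/
private theorem Count_facts (h2 : LinkS) {r q : ℕ} (hr2 : 2 ≤ r) (P : Fin q → ℤ × ℤ)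
    (hP : ∀ j, IsCoprime (P j).1 (P j).2)
    (hdet : ∀ i j, i ≠ j → (P i).1 * (P j).2 - (P j).1 * (P i).2 ≠ 0)
    (S : Finset ℕ) (hS : ∀ p ∈ S, p.Prime) (κ c : ℝ) :
    ∃ c1 : ℝ, 0 ≤ c1 ∧ ∀ B : ℝ, 1 ≤ B → ∀ x ∈ Viol S P r κ c B, ∃ f : ℤ[X], Irreducible f ∧
      f.natDegree = r ∧ aeval x f = 0 ∧ mahler f ≤ B ^ r ∧ (∀ j, value f (P j) ≠ 0) ∧
      Real.log (∏ j, (rho (Pool.Agent.W223.VD.bad S P) (value f (P j)) : ℝ)) +
        r * Pool.Agent.W223.VD.logDisc x ≤ (q - κ) * Real.log (mahler f) + (c + c1) ∧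
      Real.log (mahler f) ≤ r * Real.log B ∧
      0 ≤ Real.log (∏ j, (rho (Pool.Agent.W223.VD.bad S P) (value f (P j)) : ℝ)) ∧
      ∀ (K0 : IntermediateField ℚ ℂ) (_ : NumberField K0), ℚ⟮x⟯ = K0 → ∀ hx : x ∈ K0,
        (∀ j, ((P j).1 : K0) - (⟨x, hx⟩ : K0) * ((P j).2 : K0) ≠ 0) ∧
        hr (aff (⟨x, hx⟩ : K0)) ≤ Real.log (mahler f) ∧
        κ * Real.log (mahler f) ≤ Tot S P (⟨x, hx⟩ : K0) + c := by
  obtain ⟨c1, hc1, hlink⟩ := h2 r q P S hr2 hP hdet hS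
  refine ⟨c1, hc1, fun B hB x hx => ?_⟩
  obtain ⟨hK, f, hf, hd, hxf, hM, hv⟩ := hx
  have hr0 : (0 : ℝ) < r := by exact_mod_cast (show 0 < r by omega)
  have hval : ∀ j, value f (P j) ≠ 0 :=
    fun j => Pool.Agent.W223.VD.value_ne_zero hr2 hf hd _ (hP j)
  obtain ⟨-, hfr⟩ := Pool.Agent.W223.VD.field_data (by omega) hf hd hxf
  obtain ⟨hxK, htop⟩ := Pool.Agent.W223.VD.top_of (K := ℚ⟮x⟯) (x := x) rfl
  have hgen : (⟨x, hxK⟩ : ℚ⟮x⟯) = AdjoinSimple.gen ℚ x := rfl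
  have hxf' : aeval (⟨x, hxK⟩ : ℚ⟮x⟯) f = 0 := by
    have h9 : (aeval (⟨x, hxK⟩ : ℚ⟮x⟯) f : ℚ⟮x⟯).1 = 0 := by
      have := aeval_algebraMap_apply ℂ (⟨x, hxK⟩ : ℚ⟮x⟯) f
      have h10 : algebraMap ℚ⟮x⟯ ℂ (⟨x, hxK⟩ : ℚ⟮x⟯) = x := rfl
      rw [h10, hxf] at this
      exact this.symm
    exact Subtype.ext h9
  have hL := hlink ℚ⟮x⟯ (⟨x, hxK⟩ : ℚ⟮x⟯) f htop hf hd hfr hxf'
  have hv' : κ * Real.log (mahler f) + r * Pool.Agent.W223.VD.logDisc x ≤
      Tot S P (⟨x, hxK⟩ : ℚ⟮x⟯) + c := hv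
  have hlogM : Real.log (mahler f) ≤ r * Real.log B := by
    rw [← Real.log_pow]
    exact Real.log_le_log
      (by linarith [Pool.Agent.H813R3.Voj.one_le_mahler hf.ne_zero]) hM
  refine ⟨f, hf, hd, hxf, hM, hval, ?_, hlogM, ?_, ?_⟩
  · have e : ((q : ℝ) - κ) * Real.log (mahler f) =
        q * Real.log (mahler f) - κ * Real.log (mahler f) := by ring
    rw [e]
    linarith
  · refine Real.log_nonneg ?_
    have h8 : ∀ j, (1 : ℝ) ≤ rho (Pool.Agent.W223.VD.bad S P) (value f (P j)) := fun j => by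
      exact_mod_cast Pool.Agent.H813R3.Voj.rho_pos _ _
    calc (1 : ℝ) = ∏ _j : Fin q, (1 : ℝ) := by simp
      _ ≤ ∏ j, (rho (Pool.Agent.W223.VD.bad S P) (value f (P j)) : ℝ) :=
        Finset.prod_le_prod (fun _ _ => zero_le_one) (fun j _ => h8 j)
  · intro K0 _ hK0 hx0
    subst hK0
    refine ⟨fun j => Pool.Agent.W598.VD.TR.L_ne_zero (⟨x, hxK⟩ : ℚ⟮x⟯) f (P j) hxf' (hval j),
      ?_, ?_⟩
    · have h4 : hr (aff (⟨x, hxK⟩ : ℚ⟮x⟯)) ≤ Real.log (mahler f) := by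
        rw [Pool.Agent.W221.Exc.hr_aff_eq]
        have h3 := Pool.Agent.W469.CV.MH.t ℚ⟮x⟯ (⟨x, hxK⟩ : ℚ⟮x⟯) f hf (by omega) hxf'
        rw [hd] at h3
        have h5 : (Module.finrank ℚ ℚ⟮x⟯ : ℝ) = r := by exact_mod_cast hfr
        have h6 : (Module.finrank ℚ ℚ⟮x⟯ : ℝ) * (Real.log (mahler f) / r) =
            Real.log (mahler f) := by
          rw [h5, mul_div_cancel₀ _ hr0.ne']
        exact h3.trans (le_of_eq h6)
      exact h4
    · have h7 : 0 ≤ (r : ℝ) * Pool.Agent.W223.VD.logDisc x :=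
        mul_nonneg hr0.le (Pool.Agent.W223.VD.logDisc_nonneg x)
      have h8 : κ * Real.log (mahler f) ≤ Tot S P (⟨x, hxK⟩ : ℚ⟮x⟯) + c := by linarith
      exact h8

private theorem Count_log {δ : ℝ} (hδ : 0 < δ) (r : ℕ) {B : ℝ} (hB : 1 ≤ B) :
    1 + Real.log (1 + r * Real.log B) ≤ (1 + r / δ) * B ^ δ := by
  have hL : 0 ≤ Real.log B := Real.log_nonneg hB
  have h1 : Real.log (1 + r * Real.log B) ≤ r * Real.log B := by
    have := Real.log_le_sub_one_of_pos (show 0 < 1 + r * Real.log B by positivity)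
    linarith
  have h2 : Real.log B ≤ B ^ δ / δ := Real.log_le_rpow_div (by linarith) hδ
  have h3 : (1 : ℝ) ≤ B ^ δ := Real.one_le_rpow hB hδ.le
  have h4 : (r : ℝ) * Real.log B ≤ r * (B ^ δ / δ) :=
    mul_le_mul_of_nonneg_left h2 (Nat.cast_nonneg _)
  have e : (1 + r / δ) * B ^ δ = B ^ δ + r * (B ^ δ / δ) := by ring
  rw [e]
  linarith

/-- the large violators whose fields have a small discriminant -/
private theorem Count_fields {r q : ℕ} (hr2 : 2 ≤ r) {α : ℝ}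
    (hF : Pool.Agent.W223.VD.FieldExp r α) (P : Fin q → ℤ × ℤ) (S : Finset ℕ)
    (κ c L₀ Cf : ℝ) (hCf : 0 ≤ Cf)
    (hPF : ∀ (K : Type) [Field K] [NumberField K], Module.finrank ℚ K = r →
      ∀ (H : ℝ) (E : Finset K), 1 ≤ H →
      (∀ x ∈ E, (∀ j, ((P j).1 : K) - x * ((P j).2 : K) ≠ 0) ∧ L₀ ≤ hr (aff x) ∧
        hr (aff x) ≤ H ∧ κ * hr (aff x) ≤ Tot S P x + c) →
      (E.card : ℝ) ≤ Cf * (1 + Real.log H)) (hκ : 0 ≤ κ)
    {y c' δ : ℝ} (hy : 0 ≤ y) (hc' : 0 ≤ c') (hδ : 0 < δ) :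
    ∃ C : ℝ, 0 < C ∧ ∀ B : ℝ, 1 ≤ B → ∀ E : Finset ℂ,
      (∀ x ∈ E, ∃ f : ℤ[X], Irreducible f ∧ f.natDegree = r ∧ aeval x f = 0 ∧
        Real.log (mahler f) ≤ r * Real.log B ∧
        r * Pool.Agent.W223.VD.logDisc x ≤ r * y * Real.log B + c' ∧
        ∀ (K0 : IntermediateField ℚ ℂ) (_ : NumberField K0), ℚ⟮x⟯ = K0 → ∀ hx : x ∈ K0,
          (∀ j, ((P j).1 : K0) - (⟨x, hx⟩ : K0) * ((P j).2 : K0) ≠ 0) ∧
          hr (aff (⟨x, hx⟩ : K0)) ≤ Real.log (mahler f) ∧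
          κ * Real.log (mahler f) ≤ Tot S P (⟨x, hx⟩ : K0) + c ∧
          L₀ ≤ hr (aff (⟨x, hx⟩ : K0))) →
      (E.card : ℝ) ≤ C * B ^ ((r : ℝ) * (α * y) + δ) := by
  classical
  have hr0 : (0 : ℝ) < r := by exact_mod_cast (show 0 < r by omega)
  obtain ⟨C1, hC1, hF1⟩ := hF
  refine ⟨C1 * Real.exp (α * c') * (Cf + 1) * (1 + r / δ), by positivity, fun B hB E hE => ?_⟩
  have hB0 : 0 < B := by linarith
  have hL : 0 ≤ Real.log B := Real.log_nonneg hB
  -- the fields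
  set Δ : ℝ := Real.exp (r * y * Real.log B + c') with hΔ
  have hΔ1 : 1 ≤ Δ := Real.one_le_exp (by positivity)
  obtain ⟨hFfin, hFcard⟩ := hF1 Δ hΔ1
  have hfields : ((E.image fun x => ℚ⟮x⟯).card : ℝ) ≤ C1 * Δ ^ α := by
    refine le_trans ?_ hFcard
    rw [← Set.ncard_coe_finset]
    have hsub : ((E.image fun x => ℚ⟮x⟯ : Finset (IntermediateField ℚ ℂ)) :
        Set (IntermediateField ℚ ℂ)) ⊆ Pool.Agent.W223.VD.Flds r Δ := by
      intro K hK
      rw [Finset.mem_coe] at hK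
      obtain ⟨x, hx, rfl⟩ := Finset.mem_image.mp hK
      obtain ⟨f, g1, g2, g3, g4, g5, g6⟩ := hE x hx
      exact Pool.Agent.W223.VD.mem_flds (by omega) g1 g2 g3 g5
    exact_mod_cast Set.ncard_le_ncard hsub hFfin
  -- the fibres
  set H : ℝ := 1 + r * Real.log B with hH
  have hH1 : 1 ≤ H := by
    rw [hH]
    have : 0 ≤ (r : ℝ) * Real.log B := by positivity
    linarith
  have hlogH : 0 ≤ Real.log H := Real.log_nonneg hH1
  have hfib : ∀ K0 ∈ E.image (fun x => ℚ⟮x⟯),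
      ((E.filter fun x => ℚ⟮x⟯ = K0).card : ℝ) ≤ Cf * (1 + Real.log H) := by
    intro K0 hK0
    obtain ⟨x₀, hx₀, rfl⟩ := Finset.mem_image.mp hK0
    obtain ⟨f₀, g1, g2, g3, -, -, -⟩ := hE x₀ hx₀
    obtain ⟨hNF, hfr⟩ := Pool.Agent.W223.VD.field_data (by omega) g1 g2 g3
    have hmem : ∀ x ∈ E.filter (fun x => ℚ⟮x⟯ = ℚ⟮x₀⟯), x ∈ ℚ⟮x₀⟯ := by
      intro x hx
      rw [Finset.mem_filter] at hx
      rw [← hx.2]
      exact mem_adjoin_simple_self ℚ x
    have hcard : (E.filter fun x => ℚ⟮x⟯ = ℚ⟮x₀⟯).card =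
        ((E.filter fun x => ℚ⟮x⟯ = ℚ⟮x₀⟯).subtype (fun x => x ∈ ℚ⟮x₀⟯)).card := by
      rw [Finset.card_subtype, Finset.filter_true_of_mem hmem]
    rw [hcard]
    refine hPF ℚ⟮x₀⟯ hfr H _ hH1 ?_
    rintro ⟨x, hx⟩ hxE
    rw [Finset.mem_subtype] at hxE
    have hxE' := Finset.mem_filter.1 hxE
    obtain ⟨f, k1, k2, k3, k4, k5, k6⟩ := hE x hxE'.1
    obtain ⟨l1, l2, l3, l4⟩ := k6 ℚ⟮x₀⟯ hNF hxE'.2 hx
    refine ⟨l1, l4, ?_, ?_⟩
    · rw [hH]
      linarith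
    · exact (mul_le_mul_of_nonneg_left l2 hκ).trans l3
  have hcardE : (E.card : ℝ) ≤ ((E.image fun x => ℚ⟮x⟯).card : ℝ) * (Cf * (1 + Real.log H)) := by
    have h1 : (E.card : ℝ) = ∑ K0 ∈ E.image (fun x => ℚ⟮x⟯),
        ((E.filter fun x => ℚ⟮x⟯ = K0).card : ℝ) := by
      exact_mod_cast Finset.card_eq_sum_card_image (fun x => ℚ⟮x⟯) E
    rw [h1]
    refine (Finset.sum_le_sum hfib).trans ?_
    rw [Finset.sum_const, nsmul_eq_mul]
  have e1 : Δ ^ α = Real.exp (α * c') * B ^ ((r : ℝ) * (α * y)) := by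
    rw [hΔ, ← Real.exp_mul, Real.rpow_def_of_pos hB0, ← Real.exp_add]
    congr 1
    ring
  have e2 := Count_log hδ r hB
  rw [← hH] at e2
  calc (E.card : ℝ) ≤ ((E.image fun x => ℚ⟮x⟯).card : ℝ) * (Cf * (1 + Real.log H)) := hcardE
    _ ≤ (C1 * Δ ^ α) * ((Cf + 1) * ((1 + r / δ) * B ^ δ)) := by
        refine mul_le_mul hfields ?_ (by positivity) (by positivity)
        refine mul_le_mul (by linarith) e2 (by positivity) (by linarith)
    _ = _ := by
        rw [e1, Real.rpow_add hB0]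
        ring

theorem count (h1 : PerField) (h2 : LinkS) (h3 : TotLe) : CountS := by
  intro r q α hr2 hq hα hF P hP hdet S hS κ c δ hκ2 hκq hc hδ
  classical
  have hr0 : (0 : ℝ) < r := by exact_mod_cast (show 0 < r by omega)
  have hq0 : (0 : ℝ) < q := by exact_mod_cast (show 0 < q by omega)
  have hr2' : (2 : ℝ) ≤ r := by exact_mod_cast hr2
  have hκ0 : 0 < κ := by linarith
  have hP0 : ∀ j, P j ≠ 0 := by
    intro j h
    have h4 := hP j
    rw [h] at h4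
    obtain ⟨a, b, hab⟩ := h4
    simp at hab
  obtain ⟨c1, hc1, hfacts⟩ := Count_facts h2 hr2 P hP hdet S hS κ c
  obtain ⟨L₀, Cf, hL₀, hCf, hPF⟩ := h1 r q P S κ c (by omega) hdet hP0 hS hκ2
  obtain ⟨c2, hc2, hTL⟩ := h3 r q P S hP0 hS
  set u : ℝ := q - κ with hu
  have hu0 : 0 ≤ u := by rw [hu]; linarith
  set m : ℕ := min q (r + 1) with hm
  have hmq : m ≤ q := min_le_left _ _
  have hmr : m ≤ r + 1 := min_le_right _ _
  have hmr' : (m : ℝ) ≤ r + 1 := by exact_mod_cast hmr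
  have hm0 : (0 : ℝ) ≤ m := Nat.cast_nonneg _
  have hden : 0 < q * α + m := by
    have : 0 < (q : ℝ) * α := mul_pos hq0 (by linarith)
    linarith
  set ts : ℝ := (q * (r + 1 - m) + m * u) / (q * α + m) with hts
  have hts0 : 0 ≤ ts := by
    rw [hts]
    refine div_nonneg ?_ hden.le
    have h4 : 0 ≤ (q : ℝ) * (r + 1 - m) := mul_nonneg hq0.le (by linarith)
    have h5 : 0 ≤ (m : ℝ) * u := mul_nonneg hm0 hu0
    linarith
  have hexpo : expo α r q κ = α * min u ts := rfl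
  have htsD : ts * (q * α + m) = q * (r + 1 - m) + m * u := by
    rw [hts]
    exact div_mul_cancel₀ _ hden.ne'
  have hident : (r : ℝ) + 1 - m + m * (u - ts) / q = α * ts := by
    have h4 : (q : ℝ) * ((r : ℝ) + 1 - m + m * (u - ts) / q) = q * (α * ts) := by
      have h5 : (q : ℝ) * (m * (u - ts) / q) = m * (u - ts) := mul_div_cancel₀ _ hq0.ne'
      rw [mul_add, h5]
      linear_combination -htsD
    exact mul_left_cancel₀ hq0.ne' h4
  set S' := Pool.Agent.W223.VD.bad S P with hS'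
  -- the small violators
  set M : ℝ := Real.exp ((q * L₀ + c2 + c) / κ) with hMdef
  have hM1 : 1 ≤ M := Real.one_le_exp (div_nonneg (by positivity) hκ0.le)
  obtain ⟨C0, hC0, hcp0⟩ := Pool.Agent.H813R3.Voj.count_points r q (by omega) (by omega) P hP0
    hdet S' m hmq hmr u (c + c1) δ hu0 hδ
  -- large violators
  let Lg : ℂ → Prop := fun x => ∀ (K0 : IntermediateField ℚ ℂ) (_ : NumberField K0),
    ℚ⟮x⟯ = K0 → ∀ hx : x ∈ K0, L₀ ≤ hr (aff (⟨x, hx⟩ : K0))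
  set N0 : ℝ := C0 * M ^ ((r : ℝ) * (r + 1 - m + m * u / q) + δ) with hN0
  have hN00 : 0 ≤ N0 := by positivity
  have hsmall : ∀ B : ℝ, 1 ≤ B → ∀ E : Finset ℂ, (E : Set ℂ) ⊆ Viol S P r κ c B →
      (∀ x ∈ E, ¬ Lg x) → (E.card : ℝ) ≤ N0 := by
    intro B hB E hE hns
    refine hcp0 M hM1 E ?_
    intro x hx
    obtain ⟨f, g1, g2, g3, g4, g5, g6, g7, g8, g9⟩ := hfacts B hB x (hE hx)
    refine ⟨f, g1.ne_zero, g2, g3, ?_, g5, ?_⟩
    · have hn := hns x hx
      simp only [Lg] at hn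
      push Not at hn
      obtain ⟨K0, hNF, hK0, hxK0, hlt⟩ := hn
      obtain ⟨l1, l2, l3⟩ := g9 K0 hNF hK0 hxK0
      have hfrK : Module.finrank ℚ K0 = r := by
        obtain ⟨-, h4⟩ := Pool.Agent.W223.VD.field_data (by omega) g1 g2 g3
        subst hK0
        exact h4
      have h4 := hTL K0 hfrK (⟨x, hxK0⟩ : K0) l1
      have h5 : κ * Real.log (mahler f) ≤ q * L₀ + c2 + c := by
        have h6 : (q : ℝ) * hr (aff (⟨x, hxK0⟩ : K0)) ≤ q * L₀ :=
          mul_le_mul_of_nonneg_left hlt.le hq0.le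
        linarith
      have h6 : Real.log (mahler f) ≤ (q * L₀ + c2 + c) / κ := by
        rw [le_div_iff₀ hκ0]
        linarith
      have hmpos : 0 < mahler f :=
        lt_of_lt_of_le one_pos (Pool.Agent.H813R3.Voj.one_le_mahler g1.ne_zero)
      have h7 : mahler f ≤ M := by
        rw [hMdef, ← Real.exp_log hmpos]
        exact Real.exp_le_exp.mpr h6
      exact h7.trans (le_self_pow₀ hM1 (by omega))
    · have h7 : 0 ≤ (r : ℝ) * Pool.Agent.W223.VD.logDisc x :=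
        mul_nonneg hr0.le (Pool.Agent.W223.VD.logDisc_nonneg x)
      linarith
  by_cases hcase : ts ≤ u
  · -- two ranges
    obtain ⟨C1, hC1, hcp⟩ := Pool.Agent.H813R3.Voj.count_points r q (by omega) (by omega) P hP0
      hdet S' m hmq hmr (u - ts) (c + c1) δ (by linarith) hδ
    obtain ⟨C2, hC2, hcf⟩ := Count_fields hr2 hF P S κ c L₀ Cf hCf hPF hκ0.le (y := ts)
      (c' := 0) (δ := δ) hts0 le_rfl hδ
    rw [hexpo, min_eq_right hcase]
    refine ⟨N0 + C1 + C2, by positivity, fun B hB => ?_⟩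
    refine Pool.Agent.H813R3.Voj.ncard_le_of_finset _ _ fun E hE => ?_
    have hB0 : 0 < B := by linarith
    have hpow : (1 : ℝ) ≤ B ^ ((r : ℝ) * (α * ts) + δ) :=
      Real.one_le_rpow hB (by positivity)
    have k0 := hsmall B hB (E.filter fun x => ¬ Lg x)
      (fun x hx => hE (Finset.mem_coe.2 (Finset.mem_filter.1 (Finset.mem_coe.1 hx)).1))
      (fun x hx => (Finset.mem_filter.1 hx).2)
    have k1 := hcp B hB ((E.filter fun x => Lg x).filter fun x =>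
      r * ts * Real.log B < r * Pool.Agent.W223.VD.logDisc x) ?_
    · have k2 := hcf B hB ((E.filter fun x => Lg x).filter fun x =>
        ¬ r * ts * Real.log B < r * Pool.Agent.W223.VD.logDisc x) ?_
      · have h4 : (E.card : ℝ) = ((E.filter fun x => Lg x).card : ℝ) +
            ((E.filter fun x => ¬ Lg x).card : ℝ) := by
          exact_mod_cast (Finset.card_filter_add_card_filter_not _).symm
        have h5 : ((E.filter fun x => Lg x).card : ℝ) =
            (((E.filter fun x => Lg x).filter fun x =>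
              r * ts * Real.log B < r * Pool.Agent.W223.VD.logDisc x).card : ℝ) +
            (((E.filter fun x => Lg x).filter fun x =>
              ¬ r * ts * Real.log B < r * Pool.Agent.W223.VD.logDisc x).card : ℝ) := by
          exact_mod_cast (Finset.card_filter_add_card_filter_not _).symm
        rw [hident] at k1
        rw [h4, h5, add_mul, add_mul]
        have h6 : N0 ≤ N0 * B ^ ((r : ℝ) * (α * ts) + δ) := le_mul_of_one_le_right hN00 hpow
        linarith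
      · intro x hx
        rw [Finset.mem_filter, Finset.mem_filter, not_lt] at hx
        obtain ⟨f, g1, g2, g3, g4, g5, g6, g7, g8, g9⟩ := hfacts B hB x (hE hx.1.1)
        refine ⟨f, g1, g2, g3, g7, by linarith [hx.2], ?_⟩
        intro K0 hNF hK0 hxK0
        obtain ⟨l1, l2, l3⟩ := g9 K0 hNF hK0 hxK0
        exact ⟨l1, l2, l3, hx.1.2 K0 hNF hK0 hxK0⟩
    · intro x hx
      rw [Finset.mem_filter, Finset.mem_filter] at hx
      obtain ⟨f, g1, g2, g3, g4, g5, g6, g7, g8, g9⟩ := hfacts B hB x (hE hx.1.1)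
      refine ⟨f, g1.ne_zero, g2, g3, g4, g5, ?_⟩
      have h4 : ts * Real.log (mahler f) ≤ ts * (r * Real.log B) :=
        mul_le_mul_of_nonneg_left g7 hts0
      have h5 : (u - ts) * Real.log (mahler f) =
          u * Real.log (mahler f) - ts * Real.log (mahler f) := by ring
      have h6 : (r : ℝ) * ts * Real.log B = ts * (r * Real.log B) := by ring
      rw [h5]
      linarith [hx.2]
  · -- one range
    push Not at hcase
    obtain ⟨C2, hC2, hcf⟩ := Count_fields hr2 hF P S κ c L₀ Cf hCf hPF hκ0.le (y := u)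
      (c' := c + c1) (δ := δ) hu0 (by linarith) hδ
    rw [hexpo, min_eq_left hcase.le]
    refine ⟨N0 + C2, by positivity, fun B hB => ?_⟩
    refine Pool.Agent.H813R3.Voj.ncard_le_of_finset _ _ fun E hE => ?_
    have hB0 : 0 < B := by linarith
    have hpow : (1 : ℝ) ≤ B ^ ((r : ℝ) * (α * u) + δ) :=
      Real.one_le_rpow hB (by positivity)
    have k0 := hsmall B hB (E.filter fun x => ¬ Lg x)
      (fun x hx => hE (Finset.mem_coe.2 (Finset.mem_filter.1 (Finset.mem_coe.1 hx)).1))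
      (fun x hx => (Finset.mem_filter.1 hx).2)
    have k2 := hcf B hB (E.filter fun x => Lg x) ?_
    · have h4 : (E.card : ℝ) = ((E.filter fun x => Lg x).card : ℝ) +
          ((E.filter fun x => ¬ Lg x).card : ℝ) := by
        exact_mod_cast (Finset.card_filter_add_card_filter_not _).symm
      rw [h4, add_mul]
      have h6 : N0 ≤ N0 * B ^ ((r : ℝ) * (α * u) + δ) := le_mul_of_one_le_right hN00 hpow
      linarith
    · intro x hx
      rw [Finset.mem_filter] at hx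
      obtain ⟨f, g1, g2, g3, g4, g5, g6, g7, g8, g9⟩ := hfacts B hB x (hE hx.1)
      refine ⟨f, g1, g2, g3, g7, ?_, ?_⟩
      · have h4 : u * Real.log (mahler f) ≤ u * (r * Real.log B) :=
          mul_le_mul_of_nonneg_left g7 hu0
        have h6 : (r : ℝ) * u * Real.log B = u * (r * Real.log B) := by ring
        rw [h6]
        linarith
      · intro K0 hNF hK0 hxK0
        obtain ⟨l1, l2, l3⟩ := g9 K0 hNF hK0 hxK0
        exact ⟨l1, l2, l3, hx.2 K0 hNF hK0 hxK0⟩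

end Pool.Agent.TH876.QR
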