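import Mathlib
import Pool.Agent.TH876.QR.Def
import Pool.Agent.W598.VD.TR
import Pool.Agent.W74.VD.GL
import Pool.Agent.W469.CV.MH
import Pool.Agent.W221.ExcLow1

set_option autoImplicit false

/-!
# The radicals of the values and the local heights at `S`
-/

namespace Pool.Agent.TH876.QR

open NumberField IsDedekindDomain Finset Polynomial IntermediateField
open Pool.Agent.H691R3 Pool.Agent.TH876.Loc
open Pool.Agent.H813R3.Voj (value rho mahler)

section

variable {K : Type} [Field K] [NumberField K]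

private theorem Link_val_eq (v : Pr K) (x : K) :
    fv v x = ((WithZeroMulInt.toNNReal (NumberField.HeightOneSpectrum.absNorm_ne_zero v)
      (v.valuation K x) : NNReal) : ℝ) :=
  NumberField.FinitePlace.norm_embedding' (v := v) (x := x)

private theorem Link_lt (v : Pr K) {x y : K} (h : v.valuation K y < v.valuation K x) :
    fv v y < fv v x := by
  rw [Link_val_eq, Link_val_eq, NNReal.coe_lt_coe]
  exact (WithZeroMulInt.toNNReal_strictMono
    (NumberField.HeightOneSpectrum.one_lt_absNorm_nnreal v)) h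

private theorem Link_lt_max (v : Pr K) {x y : K}
    (h : v.valuation K y < max (v.valuation K x) 1) : fv v y < max (fv v x) 1 := by
  rcases lt_max_iff.1 h with h | h
  · exact lt_max_of_lt_left (Link_lt v h)
  · refine lt_max_of_lt_right ?_
    have h1 : v.valuation K y < v.valuation K (1 : K) := by rwa [map_one]
    have h2 := Link_lt v h1
    rwa [map_one] at h2

private theorem Link_fv_int (v : Pr K) (n : ℤ) : fv v (n : K) ≤ 1 := by
  obtain ⟨m, h | h⟩ := Int.eq_nat_or_neg n
  · have e : (n : K) = (m : K) := by rw [h, Int.cast_natCast]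
    rw [e]
    exact fv_natCast_le v m
  · have e : (n : K) = -(m : K) := by rw [h, Int.cast_neg, Int.cast_natCast]
    rw [e, (fv v).map_neg]
    exact fv_natCast_le v m

private theorem Link_max_one (v : Pr K) {P : ℤ × ℤ} (hP : IsCoprime P.1 P.2) :
    max (fv v (P.1 : K)) (fv v (P.2 : K)) = 1 := by
  refine le_antisymm (max_le (Link_fv_int v _) (Link_fv_int v _)) ?_
  obtain ⟨a, b, hab⟩ := hP
  have h1 : (1 : K) = (a : K) * (P.1 : K) + (b : K) * (P.2 : K) := by exact_mod_cast hab.symm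
  have h2 : fv v (1 : K) ≤ max (fv v ((a : K) * (P.1 : K))) (fv v ((b : K) * (P.2 : K))) := by
    rw [h1]
    exact fv_na v _ _
  rw [map_one, map_mul, map_mul] at h2
  refine h2.trans (max_le_max ?_ ?_)
  · calc fv v (a : K) * fv v (P.1 : K) ≤ 1 * fv v (P.1 : K) :=
        mul_le_mul_of_nonneg_right (Link_fv_int v a) ((fv v).nonneg _)
      _ = fv v (P.1 : K) := one_mul _
  · calc fv v (b : K) * fv v (P.2 : K) ≤ 1 * fv v (P.2 : K) :=
        mul_le_mul_of_nonneg_right (Link_fv_int v b) ((fv v).nonneg _)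
      _ = fv v (P.2 : K) := one_mul _

private theorem Link_pt_ne {P : ℤ × ℤ} (hP : IsCoprime P.1 P.2) : pt K P ≠ 0 := by
  intro h
  have h1 : (P.1 : K) = 0 := congrArg Prod.fst h
  have h2 : (P.2 : K) = 0 := congrArg Prod.snd h
  have h3 : P.1 = 0 := by exact_mod_cast h1
  have h4 : P.2 = 0 := by exact_mod_cast h2
  rw [h3, h4] at hP
  obtain ⟨a, b, hab⟩ := hP
  simp at hab

private theorem Link_wedge {x : K} {P : ℤ × ℤ} (h : (P.1 : K) - x * (P.2 : K) ≠ 0) :
    (aff x).1 * (pt K P).2 - (aff x).2 * (pt K P).1 ≠ 0 := by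
  intro h1
  apply h
  have h2 : x * (P.2 : K) - 1 * (P.1 : K) = 0 := h1
  linear_combination -h2

private theorem Link_lam_ge (v : Pr K) {x : K} {P : ℤ × ℤ} (hP : IsCoprime P.1 P.2)
    (hne : (P.1 : K) - x * (P.2 : K) ≠ 0)
    (h : v.valuation K ((P.1 : K) - x * (P.2 : K)) < max (v.valuation K x) 1) :
    Real.log (Nv v) ≤ lamA (fv v) (aff x) (pt K P) := by
  have hw := Link_wedge hne
  obtain ⟨m, hm⟩ := lamF_discrete v (aff_ne_zero x) (Link_pt_ne (K := K) hP) hw
  have h1 := lamA_eq (fv v) (aff_ne_zero x) (Link_pt_ne (K := K) hP) hw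
  have h2 : max (fv v (pt K P).1) (fv v (pt K P).2) = 1 := Link_max_one v hP
  have h3 : fv v ((aff x).1 * (pt K P).2 - (aff x).2 * (pt K P).1) < max (fv v x) 1 := by
    have e : (aff x).1 * (pt K P).2 - (aff x).2 * (pt K P).1 =
        -((P.1 : K) - x * (P.2 : K)) := by
      show x * (P.2 : K) - 1 * (P.1 : K) = _
      ring
    rw [e, (fv v).map_neg]
    exact Link_lt_max v h
  have h4 : max (fv v (aff x).1) (fv v (aff x).2) = max (fv v x) 1 := by
    show max (fv v x) (fv v 1) = _
    rw [map_one]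
  rw [h2, h4, Real.log_one, add_zero] at h1
  have h5 : 0 < lamA (fv v) (aff x) (pt K P) := by
    rw [h1, sub_pos]
    exact Real.log_lt_log ((fv v).pos hw) h3
  have h6 : m ≠ 0 := by
    rintro rfl
    rw [hm] at h5
    simp at h5
  have h7 : (1 : ℝ) ≤ m := by exact_mod_cast Nat.one_le_iff_ne_zero.2 h6
  rw [hm]
  have h8 := log_Nv_pos v
  nlinarith

private theorem Link_place_int (w : InfinitePlace K) (n : ℤ) : w (n : K) = |(n : ℝ)| := by
  rw [← InfinitePlace.norm_embedding_eq w (n : K), map_intCast, Complex.norm_intCast]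

private theorem Link_hr_pt {P : ℤ × ℤ} (hP : IsCoprime P.1 P.2) :
    hr (pt K P) = Module.finrank ℚ K * Real.log (max |(P.1 : ℝ)| |(P.2 : ℝ)|) := by
  unfold hr
  have h1 : ∑ᶠ v : HeightOneSpectrum (𝓞 K),
      Real.log (max (fv v (pt K P).1) (fv v (pt K P).2)) = 0 := by
    have h2 : ∀ v : HeightOneSpectrum (𝓞 K),
        Real.log (max (fv v (pt K P).1) (fv v (pt K P).2)) = 0 := by
      intro v
      have h3 : max (fv v (pt K P).1) (fv v (pt K P).2) = 1 := Link_max_one v hP
      rw [h3, Real.log_one]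
    rw [finsum_congr h2, finsum_zero]
  rw [h1, add_zero]
  have h4 : ∀ w : InfinitePlace K, (w.mult : ℝ) * Real.log (max (w (pt K P).1) (w (pt K P).2)) =
      (w.mult : ℝ) * Real.log (max |(P.1 : ℝ)| |(P.2 : ℝ)|) := by
    intro w
    show (w.mult : ℝ) * Real.log (max (w (P.1 : K)) (w (P.2 : K))) = _
    rw [Link_place_int, Link_place_int]
  rw [Finset.sum_congr rfl fun w _ => h4 w, ← Finset.sum_mul]
  congr 1
  exact_mod_cast (InfinitePlace.sum_mult_eq (K := K))

private theorem Link_lossK : lossK K = Module.finrank ℚ K * Real.log 2 := by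
  unfold lossK
  rw [← Finset.sum_mul]
  congr 1
  exact_mod_cast (InfinitePlace.sum_mult_eq (K := K))

private theorem Link_sum {q : ℕ} (S : Finset ℕ) (P : Fin q → ℤ × ℤ) (x : K)
    (hP : ∀ j, IsCoprime (P j).1 (P j).2)
    (hne : ∀ j, ((P j).1 : K) - x * ((P j).2 : K) ≠ 0) :
    Pool.Agent.W223.VD.cnt S P x + Tot S P x ≤
      ∑ j, (hr (aff x) + hr (pt K (P j)) + lossK K) := by
  classical
  have haff := aff_ne_zero x
  have hpt : ∀ j, pt K (P j) ≠ 0 := fun j => Link_pt_ne (hP j)
  have hw : ∀ j, (aff x).1 * (pt K (P j)).2 - (aff x).2 * (pt K (P j)).1 ≠ 0 :=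
    fun j => Link_wedge (hne j)
  set A : Pl K → ℝ := fun v => ∑ j, lam v (aff x) (pt K (P j)) with hA
  set F : Finset (Pr K) := Finset.univ.biUnion
    (fun j => (lamF_support_finite haff (hpt j) (hw j)).toFinset) with hF
  have hFm : ∀ v : Pr K, v ∉ F → ∀ j, lamA (fv v) (aff x) (pt K (P j)) = 0 := by
    intro v hv j
    by_contra hcon
    apply hv
    rw [hF, Finset.mem_biUnion]
    refine ⟨j, Finset.mem_univ _, ?_⟩
    rw [Set.Finite.mem_toFinset]
    exact hcon
  have hlam0 : ∀ (v : Pr K) j, 0 ≤ lamA (fv v) (aff x) (pt K (P j)) :=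
    fun v j => lamF_nonneg v haff (hpt j) (hw j)
  have hAinr : ∀ v : Pr K, A (Sum.inr v) = ∑ j, lamA (fv v) (aff x) (pt K (P j)) := fun v => rfl
  have hA0 : ∀ v : Pr K, 0 ≤ A (Sum.inr v) := fun v => by
    rw [hAinr]
    exact Finset.sum_nonneg fun j _ => hlam0 v j
  have hAge : ∀ v : Pr K, (∃ j, v.valuation K (((P j).1 : K) - x * ((P j).2 : K)) <
      max (v.valuation K x) 1) → Real.log (Ideal.absNorm v.asIdeal) ≤ A (Sum.inr v) := by
    rintro v ⟨j, hj⟩
    rw [hAinr]
    exact (Link_lam_ge v (hP j) (hne j) hj).trans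
      (Finset.single_le_sum (f := fun j => lamA (fv v) (aff x) (pt K (P j)))
        (fun j _ => hlam0 v j) (Finset.mem_univ j))
  -- the truncated counting function
  have hcnt : Pool.Agent.W223.VD.cnt S P x ≤
      ∑ v ∈ F.filter (fun v => ∀ p ∈ S, (p : 𝓞 K) ∉ v.asIdeal), A (Sum.inr v) := by
    unfold Pool.Agent.W223.VD.cnt
    rw [finsum_eq_sum_of_support_subset (s := F), Finset.sum_filter]
    · refine Finset.sum_le_sum fun v _ => ?_
      by_cases h1 : ∀ p ∈ S, (p : 𝓞 K) ∉ v.asIdeal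
      · rw [if_pos h1]
        split_ifs with h2
        · exact hAge v h2.2
        · exact hA0 v
      · rw [if_neg h1, if_neg (fun h => h1 h.1)]
    · intro v hv
      rw [Function.mem_support] at hv
      rw [Finset.mem_coe]
      by_contra hcon
      apply hv
      rw [if_neg]
      rintro ⟨-, h2⟩
      have h3 := hAge v h2
      have h4 : A (Sum.inr v) = 0 := by
        rw [hAinr]
        exact Finset.sum_eq_zero fun j _ => hFm v hcon j
      rw [h4] at h3
      have h5 : 0 < Real.log (Nv v) := log_Nv_pos v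
      have h6 : Real.log (Nv v) ≤ 0 := h3
      linarith
  set T : Finset (Pl K) := (Finset.univ : Finset (InfinitePlace K)).disjSum F with hT
  have htot : Tot S P x = ∑ v ∈ T.filter (fun v => v ∈ Pls K S), A v := by
    unfold Tot
    refine finsum_mem_eq_sum_of_inter_support_eq _ ?_
    ext v
    simp only [Set.mem_inter_iff, Finset.mem_coe, Finset.mem_filter, Function.mem_support]
    constructor
    · rintro ⟨h1, h2⟩
      refine ⟨⟨?_, h1⟩, h2⟩
      rcases v with w | v
      · rw [hT, Finset.inl_mem_disjSum]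
        exact Finset.mem_univ _
      · rw [hT, Finset.inr_mem_disjSum]
        by_contra hcon
        exact h2 (Finset.sum_eq_zero fun j _ => hFm v hcon j)
    · rintro ⟨⟨-, h1⟩, h2⟩
      exact ⟨h1, h2⟩
  have hcomp : ∑ v ∈ F.filter (fun v => ∀ p ∈ S, (p : 𝓞 K) ∉ v.asIdeal), A (Sum.inr v) =
      ∑ v ∈ T.filter (fun v => ¬ v ∈ Pls K S), A v := by
    have h1 : T.filter (fun v => ¬ v ∈ Pls K S) =
        (F.filter (fun v => ∀ p ∈ S, (p : 𝓞 K) ∉ v.asIdeal)).map
          (⟨Sum.inr, Sum.inr_injective⟩ : Pr K ↪ Pl K) := by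
      ext v
      rw [Finset.mem_filter, Finset.mem_map]
      constructor
      · rintro ⟨h1, h2⟩
        rcases v with w | v
        · exact absurd (fun u hu => by simp at hu) h2
        · rw [hT, Finset.inr_mem_disjSum] at h1
          refine ⟨v, ?_, rfl⟩
          rw [Finset.mem_filter]
          refine ⟨h1, fun p hp hpv => h2 ?_⟩
          intro u hu
          rw [Sum.inr.injEq] at hu
          subst hu
          exact ⟨p, hp, hpv⟩
      · rintro ⟨u, h1, rfl⟩
        rw [Finset.mem_filter] at h1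
        refine ⟨?_, fun h2 => ?_⟩
        · rw [hT]
          exact Finset.inr_mem_disjSum.2 h1.1
        · obtain ⟨p, hp, hpv⟩ := h2 u rfl
          exact h1.2 p hp hpv
    rw [h1, Finset.sum_map]
    rfl
  calc Pool.Agent.W223.VD.cnt S P x + Tot S P x
      ≤ ∑ v ∈ T.filter (fun v => ¬ v ∈ Pls K S), A v +
        ∑ v ∈ T.filter (fun v => v ∈ Pls K S), A v := by
        rw [htot, ← hcomp]
        linarith
    _ = ∑ v ∈ T, A v := by
        rw [add_comm]
        exact Finset.sum_filter_add_sum_filter_not T _ _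
    _ = ∑ j, ∑ v ∈ T, lam v (aff x) (pt K (P j)) := Finset.sum_comm
    _ ≤ ∑ j, (hr (aff x) + hr (pt K (P j)) + lossK K) :=
        Finset.sum_le_sum fun j _ => sum_lam_le haff (hpt j) (hw j) T

end

theorem link : LinkS := by
  intro r q P S hr2 hP hdet hS
  have hmax : ∀ j, 1 ≤ max |((P j).1 : ℝ)| |((P j).2 : ℝ)| := by
    intro j
    by_contra hcon
    push Not at hcon
    rw [max_lt_iff] at hcon
    obtain ⟨h1, h2⟩ := hcon
    have h3 : (P j).1 = 0 := by
      rw [← Int.abs_lt_one_iff]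
      exact_mod_cast h1
    have h4 : (P j).2 = 0 := by
      rw [← Int.abs_lt_one_iff]
      exact_mod_cast h2
    obtain ⟨a, b, hab⟩ := hP j
    rw [h3, h4] at hab
    simp at hab
  refine ⟨∑ j, ((r : ℝ) * Real.log (max |((P j).1 : ℝ)| |((P j).2 : ℝ)|) + r * Real.log 2),
    Finset.sum_nonneg fun j _ => ?_, ?_⟩
  · have h1 := Real.log_nonneg (hmax j)
    have h2 : (0 : ℝ) ≤ Real.log 2 := Real.log_nonneg (by norm_num)
    positivity
  intro K _ _ x f htop hf hd hfr hx
  have hval : ∀ j, value f (P j) ≠ 0 :=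
    fun j => Pool.Agent.W223.VD.value_ne_zero hr2 hf hd _ (hP j)
  have hne : ∀ j, ((P j).1 : K) - x * ((P j).2 : K) ≠ 0 :=
    fun j => Pool.Agent.W598.VD.TR.L_ne_zero x f (P j) hx (hval j)
  have hTR := Pool.Agent.W598.VD.TR.t Pool.Agent.W74.VD.GL.t K q S
    (Pool.Agent.W223.VD.bad S P) P x f htop hf (by rw [hd, hfr]) hx hP Finset.subset_union_left
    (Pool.Agent.W223.VD.bad_det S P hdet) (Pool.Agent.W223.VD.bad_prime hS P) hval
  have h1 := Link_sum S P x hP hne
  have h2 : hr (aff x) ≤ Real.log (mahler f) := by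
    rw [Pool.Agent.W221.Exc.hr_aff_eq]
    have h3 := Pool.Agent.W469.CV.MH.t K x f hf (by omega) hx
    rw [hfr, hd] at h3
    have hr0 : (r : ℝ) ≠ 0 := by
      have : r ≠ 0 := by omega
      exact_mod_cast this
    rwa [mul_div_cancel₀ _ hr0] at h3
  have h4 : ∑ j, (hr (aff x) + hr (pt K (P j)) + lossK K) ≤ q * Real.log (mahler f) +
      ∑ j, ((r : ℝ) * Real.log (max |((P j).1 : ℝ)| |((P j).2 : ℝ)|) + r * Real.log 2) := by
    have h5 : (q : ℝ) * Real.log (mahler f) = ∑ _j : Fin q, Real.log (mahler f) := by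
      rw [Finset.sum_const, Finset.card_univ, Fintype.card_fin, nsmul_eq_mul]
    rw [h5, ← Finset.sum_add_distrib]
    refine Finset.sum_le_sum fun j _ => ?_
    rw [Link_hr_pt (hP j), Link_lossK, hfr]
    linarith
  linarith

end Pool.Agent.TH876.QR
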