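import Mathlib
import Pool.Agent.TH876.QR.Def

set_option autoImplicit false

/-!
# At each place only one of the points is near
-/

namespace Pool.Agent.TH876.QR

open NumberField IsDedekindDomain Finset Polynomial IntermediateField
open Pool.Agent.H691R3 Pool.Agent.TH876.Loc
open Pool.Agent.H813R3.Voj (value rho mahler)

private theorem Near_fv_int {K : Type} [Field K] [NumberField K] (v : Pr K) (n : ℤ) :
    fv v (n : K) ≤ 1 := by
  obtain ⟨m, hm | hm⟩ := n.eq_nat_or_neg
  · rw [hm, Int.cast_natCast]; exact fv_natCast_le v m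
  · rw [hm, Int.cast_neg, Int.cast_natCast, (fv v).map_neg]; exact fv_natCast_le v m

private theorem Near_inf_int {K : Type} [Field K] [NumberField K] (w : InfinitePlace K) (n : ℤ) :
    w (n : K) = |(n : ℝ)| := by
  rw [← InfinitePlace.norm_embedding_eq, map_intCast, Complex.norm_intCast]

private theorem Near_lossK {K : Type} [Field K] [NumberField K] :
    lossK K = Module.finrank ℚ K * Real.log 2 := by
  unfold lossK
  rw [← Finset.sum_mul, ← Nat.cast_sum, InfinitePlace.sum_mult_eq]

private theorem Near_hr {K : Type} [Field K] [NumberField K] (P : ℤ × ℤ) :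
    hr (pt K P) ≤ (Module.finrank ℚ K : ℝ) * |Real.log (max |(P.1 : ℝ)| |(P.2 : ℝ)|)| := by
  unfold hr pt
  have h1 : ∑ᶠ v : HeightOneSpectrum (𝓞 K),
      Real.log (max (fv v (P.1 : K)) (fv v (P.2 : K))) ≤ 0 := by
    have h2 : 0 ≤ ∑ᶠ v : HeightOneSpectrum (𝓞 K),
        -Real.log (max (fv v (P.1 : K)) (fv v (P.2 : K))) := by
      refine finsum_nonneg fun v => ?_
      rw [neg_nonneg]
      refine Real.log_nonpos ?_ (max_le (Near_fv_int v _) (Near_fv_int v _))
      exact le_max_of_le_left ((fv v).nonneg _)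
    rw [finsum_neg_distrib] at h2
    linarith
  have h3 : ∑ w : InfinitePlace K, (w.mult : ℝ) *
      Real.log (max (w (P.1 : K)) (w (P.2 : K))) =
      (Module.finrank ℚ K : ℝ) * Real.log (max |(P.1 : ℝ)| |(P.2 : ℝ)|) := by
    rw [← InfinitePlace.sum_mult_eq (K := K), Nat.cast_sum, Finset.sum_mul]
    refine Finset.sum_congr rfl fun w _ => ?_
    rw [Near_inf_int, Near_inf_int]
  have h4 := mul_le_mul_of_nonneg_left (le_abs_self (Real.log (max |(P.1 : ℝ)| |(P.2 : ℝ)|)))
    (Nat.cast_nonneg (α := ℝ) (Module.finrank ℚ K))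
  simp only
  linarith

private theorem Near_sum_loss {K : Type} [Field K] [NumberField K] (T : Finset (Pl K)) :
    ∑ v ∈ T, loss v ≤ lossK K := by
  classical
  have hS : ∑ v ∈ T, loss v = ∑ w ∈ T.toLeft, (w.mult : ℝ) * Real.log 2 := by
    rw [← Finset.toLeft_disjSum_toRight (u := T), Finset.sum_disjSum]
    simp only [Finset.toLeft_disjSum]
    have h1 : ∑ x ∈ T.toRight, loss (Sum.inr x : Pl K) = 0 :=
      Finset.sum_eq_zero fun v _ => rfl
    rw [h1, add_zero]
    rfl
  rw [hS]
  unfold lossK
  refine Finset.sum_le_sum_of_subset_of_nonneg (Finset.subset_univ _) fun w _ _ => ?_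
  exact mul_nonneg (Nat.cast_nonneg _) (Real.log_nonneg (by norm_num))

private theorem Near_pt_ne {K : Type} [Field K] [NumberField K] {P : ℤ × ℤ} (h : P ≠ 0) :
    pt K P ≠ 0 := by
  intro h2
  apply h
  have h3 := congrArg Prod.fst h2
  have h4 := congrArg Prod.snd h2
  simp only [pt, Prod.fst_zero, Prod.snd_zero, Int.cast_eq_zero] at h3 h4
  exact Prod.ext h3 h4

theorem near : NearS := by
  intro r q P hq hdet hne
  set A : Fin q → ℝ := fun j => r * |Real.log (max |((P j).1 : ℝ)| |((P j).2 : ℝ)|)| with hA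
  have hA0 : ∀ j, 0 ≤ A j := fun j => mul_nonneg (Nat.cast_nonneg _) (abs_nonneg _)
  set B : ℝ := r * Real.log 2 with hB
  have hB0 : 0 ≤ B := mul_nonneg (Nat.cast_nonneg _) (Real.log_nonneg (by norm_num))
  refine ⟨∑ i : Fin q, ∑ j : Fin q, (A i + A j + 3 * B), ?_, ?_⟩
  · refine Finset.sum_nonneg fun i _ => Finset.sum_nonneg fun j _ => ?_
    have := hA0 i
    have := hA0 j
    linarith
  intro K _ _ hK T x hx
  haveI : Nonempty (Fin q) := ⟨⟨0, hq⟩⟩
  have hJ : ∀ v : Pl K, ∃ j₀ : Fin q, ∀ j, lam v (aff x) (pt K (P j)) ≤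
      lam v (aff x) (pt K (P j₀)) := fun v =>
    Finite.exists_max (fun j => lam v (aff x) (pt K (P j)))
  choose J hJ using hJ
  refine ⟨J, ?_⟩
  have hw : ∀ j, (pt K (P j)).1 * (aff x).2 - (pt K (P j)).2 * (aff x).1 ≠ 0 := by
    intro j
    have h := hx j
    simp only [pt, aff, mul_one]
    rwa [mul_comm ((P j).2 : K) x]
  have hd : ∀ i j, i ≠ j → (pt K (P i)).1 * (pt K (P j)).2 - (pt K (P i)).2 * (pt K (P j)).1 ≠ 0 := by
    intro i j hij
    have h := hdet i j hij
    simp only [pt]
    have h2 : ((P i).1 : K) * ((P j).2 : K) - ((P i).2 : K) * ((P j).1 : K) =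
        (((P i).1 * (P j).2 - (P j).1 * (P i).2 : ℤ) : K) := by
      push_cast; ring
    rw [h2]
    exact Int.cast_ne_zero.mpr h
  have hp : ∀ j, pt K (P j) ≠ 0 := fun j => Near_pt_ne (hne j)
  set D : Pl K → Fin q → Fin q → ℝ := fun v i j =>
    if i = j then 0 else lam v (pt K (P i)) (pt K (P j)) + 2 * loss v with hD
  have hD0 : ∀ v i j, 0 ≤ D v i j := by
    intro v i j
    simp only [hD]
    split_ifs with h
    · exact le_rfl
    · have h1 := lam_ge v (hp i) (hp j) (hd i j h)
      have h2 := loss_nonneg v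
      linarith
  have h1 : ∀ v ∈ T, ∑ j, lam v (aff x) (pt K (P j)) ≤
      lam v (aff x) (pt K (P (J v))) + ∑ i, ∑ j, D v i j := by
    intro v _
    rw [← Finset.add_sum_erase Finset.univ (fun j => lam v (aff x) (pt K (P j)))
      (Finset.mem_univ (J v))]
    refine add_le_add le_rfl ?_
    calc ∑ j ∈ Finset.univ.erase (J v), lam v (aff x) (pt K (P j))
        ≤ ∑ j ∈ Finset.univ.erase (J v), ∑ i, D v j i := by
          refine Finset.sum_le_sum fun j hj => ?_
          have hne' : j ≠ J v := Finset.ne_of_mem_erase hj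
          have h2 := lam_triangle v (hp j) (aff_ne_zero x) (hp (J v)) (hd j (J v) hne') (hw j)
            (wedge_ne_comm (hw (J v))) (lam v (aff x) (pt K (P j)))
            (by rw [lam_comm]) (hJ v j)
          have h3 : lam v (aff x) (pt K (P j)) ≤ D v j (J v) := by
            simp only [hD, if_neg hne']
            have := loss_nonneg v
            linarith
          exact h3.trans (Finset.single_le_sum (f := fun i => D v j i)
            (fun i _ => hD0 v j i) (Finset.mem_univ (J v)))
      _ ≤ ∑ j, ∑ i, D v j i := by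
          refine Finset.sum_le_sum_of_subset_of_nonneg (Finset.erase_subset _ _) fun j _ _ => ?_
          exact Finset.sum_nonneg fun i _ => hD0 v j i
  refine (Finset.sum_le_sum h1).trans ?_
  rw [Finset.sum_add_distrib]
  refine add_le_add le_rfl ?_
  rw [Finset.sum_comm]
  refine Finset.sum_le_sum fun i _ => ?_
  rw [Finset.sum_comm]
  refine Finset.sum_le_sum fun j _ => ?_
  by_cases hij : i = j
  · have h2 : ∑ v ∈ T, D v i j = 0 := by
      refine Finset.sum_eq_zero fun v _ => ?_
      simp only [hD, if_pos hij]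
    rw [h2]
    have := hA0 i
    have := hA0 j
    linarith
  · have h2 : ∑ v ∈ T, D v i j = ∑ v ∈ T, lam v (pt K (P i)) (pt K (P j)) +
        2 * ∑ v ∈ T, loss v := by
      rw [Finset.mul_sum, ← Finset.sum_add_distrib]
      refine Finset.sum_congr rfl fun v _ => ?_
      simp only [hD, if_neg hij]
    rw [h2]
    have h3 := sum_lam_le (hp i) (hp j) (hd i j hij) T
    have h4 := Near_sum_loss T
    have h5 : lossK K = B := by rw [Near_lossK, hK]
    have h6 : hr (pt K (P i)) ≤ A i := by
      have := Near_hr (K := K) (P i)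
      rw [hK] at this
      exact this
    have h7 : hr (pt K (P j)) ≤ A j := by
      have := Near_hr (K := K) (P j)
      rw [hK] at this
      exact this
    linarith

end Pool.Agent.TH876.QR
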