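import Mathlib
import Pool.Agent.TH876.QR.Def

set_option autoImplicit false

/-!
# Two points near the same points, and the total sum of the local heights
-/

namespace Pool.Agent.TH876.QR

open NumberField IsDedekindDomain Finset Polynomial IntermediateField
open Pool.Agent.H691R3 Pool.Agent.TH876.Loc
open Pool.Agent.H813R3.Voj (value rho mahler)

theorem Pair_lossK (K : Type) [Field K] [NumberField K] :
    lossK K = Module.finrank ℚ K * Real.log 2 := by
  unfold lossK
  rw [← Finset.sum_mul, ← Nat.cast_sum, InfinitePlace.sum_mult_eq]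

theorem Pair_loss_sum {K : Type} [Field K] [NumberField K] (T : Finset (Pl K)) :
    ∑ v ∈ T, loss v ≤ lossK K := by
  have hS : ∑ v ∈ T, loss v = ∑ w ∈ T.toLeft, (w.mult : ℝ) * Real.log 2 := by
    conv_lhs => rw [← Finset.toLeft_disjSum_toRight (u := T)]
    rw [Finset.sum_disjSum]
    have : ∑ x ∈ T.toRight, loss (Sum.inr x : Pl K) = 0 := Finset.sum_eq_zero fun v _ => rfl
    rw [this, add_zero]
    rfl
  rw [hS]
  unfold lossK
  exact Finset.sum_le_sum_of_subset_of_nonneg (Finset.subset_univ _) fun w _ _ =>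
    mul_nonneg (Nat.cast_nonneg _) (Real.log_nonneg (by norm_num))

theorem pair : PairS := by
  intro K _ _ T P x y hxy hP hx hy
  have h1 : ∀ v ∈ T, min (lam v (aff x) (P v)) (lam v (aff y) (P v))
      ≤ lam v (aff x) (aff y) + loss v := by
    intro v hv
    have h2 := lam_triangle v (aff_ne_zero x) (hP v hv) (aff_ne_zero y) (aff_wedge hxy)
      (hx v hv) (wedge_ne_comm (hy v hv)) (min (lam v (aff x) (P v)) (lam v (aff y) (P v)))
      (min_le_left _ _) (by rw [lam_comm v (P v) (aff y)]; exact min_le_right _ _)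
    linarith
  have h3 := Finset.sum_le_sum h1
  rw [Finset.sum_add_distrib] at h3
  have h4 := sum_lam_le (aff_ne_zero x) (aff_ne_zero y) (aff_wedge hxy) T
  have h5 := Pair_loss_sum T
  have h6 := Pair_lossK K
  linarith

theorem Pair_fv_int {K : Type} [Field K] [NumberField K] (v : Pr K) (n : ℤ) :
    fv v (n : K) ≤ 1 := by
  rcases Int.eq_nat_or_neg n with ⟨k, rfl | rfl⟩
  · rw [Int.cast_natCast]; exact fv_natCast_le v k
  · rw [Int.cast_neg, Int.cast_natCast, map_neg_eq_map]; exact fv_natCast_le v k

theorem Pair_hr {K : Type} [Field K] [NumberField K] (u w : ℤ) (h : (u, w) ≠ 0) :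
    hr (pt K (u, w)) ≤ Module.finrank ℚ K * Real.log (1 + |(u : ℝ)| + |(w : ℝ)|) := by
  unfold hr pt
  have h1 : ∑ᶠ v : HeightOneSpectrum (𝓞 K), Real.log (max (fv v (u : K)) (fv v (w : K))) ≤ 0 := by
    have h2 : 0 ≤ ∑ᶠ v : HeightOneSpectrum (𝓞 K),
        -Real.log (max (fv v (u : K)) (fv v (w : K))) :=
      finsum_nonneg fun v => by
        rw [neg_nonneg]
        refine Real.log_nonpos ?_ (max_le (Pair_fv_int v u) (Pair_fv_int v w))
        exact le_max_of_le_left ((fv v).nonneg _)
    rw [finsum_neg_distrib] at h2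
    linarith
  have hpl : ∀ (p : InfinitePlace K) (n : ℤ), p (n : K) = |(n : ℝ)| := by
    intro p n
    rw [← InfinitePlace.norm_embedding_eq, map_intCast, Complex.norm_intCast]
  have h2 : ∑ p : InfinitePlace K, (p.mult : ℝ) * Real.log (max (p (u : K)) (p (w : K)))
      ≤ ∑ p : InfinitePlace K, (p.mult : ℝ) * Real.log (1 + |(u : ℝ)| + |(w : ℝ)|) := by
    refine Finset.sum_le_sum fun p _ => ?_
    refine mul_le_mul_of_nonneg_left ?_ (Nat.cast_nonneg _)
    rw [hpl, hpl]
    refine Real.log_le_log ?_ ?_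
    · by_contra hcon
      push Not at hcon
      have h3 : |(u : ℝ)| ≤ 0 := (le_max_left _ _).trans hcon
      have h4 : |(w : ℝ)| ≤ 0 := (le_max_right _ _).trans hcon
      have h5 : (u : ℝ) = 0 := abs_nonpos_iff.1 h3
      have h6 : (w : ℝ) = 0 := abs_nonpos_iff.1 h4
      apply h
      rw [Prod.mk_eq_zero]
      exact ⟨by exact_mod_cast h5, by exact_mod_cast h6⟩
    · have h3 := abs_nonneg (u : ℝ)
      have h4 := abs_nonneg (w : ℝ)
      exact max_le (by linarith) (by linarith)
  rw [← Finset.sum_mul, ← Nat.cast_sum, InfinitePlace.sum_mult_eq] at h2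
  linarith

theorem totLe : TotLe := by
  intro r q P S hP _
  refine ⟨∑ j, (r * Real.log (1 + |((P j).1 : ℝ)| + |((P j).2 : ℝ)|) + r * Real.log 2), ?_, ?_⟩
  · refine Finset.sum_nonneg fun j _ => ?_
    have h1 : 0 ≤ Real.log (1 + |((P j).1 : ℝ)| + |((P j).2 : ℝ)|) := by
      apply Real.log_nonneg
      have h3 := abs_nonneg ((P j).1 : ℝ)
      have h4 := abs_nonneg ((P j).2 : ℝ)
      linarith
    have h2 : 0 ≤ Real.log 2 := Real.log_nonneg (by norm_num)
    positivity
  · intro K _ _ hr' x hx
    have hc0 : 0 ≤ ∑ j, (r * Real.log (1 + |((P j).1 : ℝ)| + |((P j).2 : ℝ)|) + r * Real.log 2) := by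
      refine Finset.sum_nonneg fun j _ => ?_
      have h1 : 0 ≤ Real.log (1 + |((P j).1 : ℝ)| + |((P j).2 : ℝ)|) := by
        apply Real.log_nonneg
        have h3 := abs_nonneg ((P j).1 : ℝ)
        have h4 := abs_nonneg ((P j).2 : ℝ)
        linarith
      have h2 : 0 ≤ Real.log 2 := Real.log_nonneg (by norm_num)
      positivity
    unfold Tot
    by_cases hf : (Pls K S ∩ Function.support fun v => ∑ j, lam v (aff x) (pt K (P j))).Finite
    · rw [finsum_mem_eq_sum _ hf, Finset.sum_comm]
      have h1 : ∀ j ∈ (Finset.univ : Finset (Fin q)),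
          ∑ v ∈ hf.toFinset, lam v (aff x) (pt K (P j)) ≤ hr (aff x) +
            (r * Real.log (1 + |((P j).1 : ℝ)| + |((P j).2 : ℝ)|) + r * Real.log 2) := by
        intro j _
        have hpt : pt K (P j) ≠ 0 := by
          intro h
          apply hP j
          unfold pt at h
          rw [Prod.mk_eq_zero] at h
          exact Prod.ext (by exact_mod_cast h.1) (by exact_mod_cast h.2)
        have hw : (aff x).1 * (pt K (P j)).2 - (aff x).2 * (pt K (P j)).1 ≠ 0 := by
          intro h
          apply hx j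
          simp only [aff, pt, one_mul] at h
          linear_combination -h
        have h2 := sum_lam_le (aff_ne_zero x) hpt hw hf.toFinset
        have h3 := Pair_lossK K
        have h4 := Pair_hr (K := K) (P j).1 (P j).2 (hP j)
        have h5 : pt K ((P j).1, (P j).2) = pt K (P j) := rfl
        rw [h5, hr'] at h4
        rw [hr'] at h3
        linarith
      refine (Finset.sum_le_sum h1).trans ?_
      rw [Finset.sum_add_distrib, Finset.sum_const, Finset.card_univ, Fintype.card_fin,
        nsmul_eq_mul]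
    · rw [finsum_mem_eq_zero_of_infinite hf]
      have h1 := hr_aff_nonneg x
      positivity

end Pool.Agent.TH876.QR
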