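import Mathlib
import Pool.Agent.TH876.QR.Def

set_option autoImplicit false

/-!
# The violators in one field (written by helper521, job 3388 of helper876)
-/

namespace Pool.Agent.TH876.QR

open NumberField IsDedekindDomain Finset Polynomial IntermediateField
open Pool.Agent.H691R3 Pool.Agent.TH876.Loc
open Pool.Agent.H813R3.Voj (value rho mahler)

private theorem Pig_w_int {K : Type} [Field K] [NumberField K] (w : InfinitePlace K) (n : ℤ) :
    w (n : K) = |(n : ℝ)| := by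
  rw [← InfinitePlace.norm_embedding_eq, map_intCast, Complex.norm_intCast]

private theorem Pig_fv_int {K : Type} [Field K] [NumberField K] (v : Pr K) (n : ℤ) :
    fv v (n : K) ≤ 1 := by
  obtain ⟨m, rfl | rfl⟩ := n.eq_nat_or_neg
  · rw [Int.cast_natCast]
    exact fv_natCast_le v m
  · rw [Int.cast_neg, Int.cast_natCast, (fv v).map_neg]
    exact fv_natCast_le v m

private theorem Pig_pt_ne {K : Type} [Field K] [NumberField K] {u : ℤ × ℤ} (hu : u ≠ 0) :
    pt K u ≠ 0 := by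
  intro h
  apply hu
  have h1 : (u.1 : K) = 0 := congrArg Prod.fst h
  have h2 : (u.2 : K) = 0 := congrArg Prod.snd h
  exact Prod.ext (by exact_mod_cast h1) (by exact_mod_cast h2)

/-- the height of a rational point -/
private theorem Pig_hr_pt (K : Type) [Field K] [NumberField K] {u : ℤ × ℤ} (hu : u ≠ 0) :
    hr (pt K u) ≤ Module.finrank ℚ K * Real.log (|(u.1 : ℝ)| + |(u.2 : ℝ)|) := by
  unfold hr
  have h1 : ∑ w : InfinitePlace K, (w.mult : ℝ) * Real.log (max (w (pt K u).1) (w (pt K u).2)) ≤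
      ∑ w : InfinitePlace K, (w.mult : ℝ) * Real.log (|(u.1 : ℝ)| + |(u.2 : ℝ)|) := by
    refine Finset.sum_le_sum fun w _ => mul_le_mul_of_nonneg_left ?_ (Nat.cast_nonneg _)
    have e1 : w (pt K u).1 = |(u.1 : ℝ)| := Pig_w_int w u.1
    have e2 : w (pt K u).2 = |(u.2 : ℝ)| := Pig_w_int w u.2
    have e3 : 0 < max (w.1 (pt K u).1) (w.1 (pt K u).2) := max_pos w.1 (Pig_pt_ne hu)
    have e4 : 0 < max (w (pt K u).1) (w (pt K u).2) := e3
    rw [e1, e2] at e4 ⊢
    refine Real.log_le_log e4 (max_le ?_ ?_)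
    · linarith [abs_nonneg (u.2 : ℝ)]
    · linarith [abs_nonneg (u.1 : ℝ)]
  have h2 : ∑ᶠ v : HeightOneSpectrum (𝓞 K), Real.log (max (fv v (pt K u).1) (fv v (pt K u).2)) ≤
      0 := by
    have e1 : 0 ≤ ∑ᶠ v : HeightOneSpectrum (𝓞 K),
        -Real.log (max (fv v (pt K u).1) (fv v (pt K u).2)) := by
      refine finsum_nonneg fun v => neg_nonneg.2 (Real.log_nonpos ?_ ?_)
      · exact ((fv v).nonneg _).trans (le_max_left _ _)
      · exact max_le (Pig_fv_int v u.1) (Pig_fv_int v u.2)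
    rw [finsum_neg_distrib] at e1
    linarith
  have h3 : ∑ w : InfinitePlace K, (w.mult : ℝ) * Real.log (|(u.1 : ℝ)| + |(u.2 : ℝ)|) =
      Module.finrank ℚ K * Real.log (|(u.1 : ℝ)| + |(u.2 : ℝ)|) := by
    rw [← Finset.sum_mul, ← Nat.cast_sum, InfinitePlace.sum_mult_eq]
  linarith

private theorem Pig_log_nonneg {u : ℤ × ℤ} (hu : u ≠ 0) :
    0 ≤ Real.log (|(u.1 : ℝ)| + |(u.2 : ℝ)|) := by
  apply Real.log_nonneg
  have h : 1 ≤ |u.1| + |u.2| := by
    by_contra hc
    push Not at hc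
    have e1 := abs_nonneg u.1
    have e2 := abs_nonneg u.2
    have e3 : |u.1| = 0 := by omega
    have e4 : |u.2| = 0 := by omega
    exact hu (Prod.ext (abs_eq_zero.1 e3) (abs_eq_zero.1 e4))
  exact_mod_cast h

private theorem Pig_lossK (K : Type) [Field K] [NumberField K] :
    lossK K = Module.finrank ℚ K * Real.log 2 := by
  unfold lossK
  rw [← Finset.sum_mul, ← Nat.cast_sum, InfinitePlace.sum_mult_eq]

private theorem Pig_sum_loss {K : Type} [Field K] [NumberField K] (T : Finset (Pl K)) :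
    ∑ v ∈ T, loss v ≤ lossK K := by
  classical
  rw [← Finset.toLeft_disjSum_toRight (u := T), Finset.sum_disjSum]
  have h1 : ∑ v ∈ T.toRight, loss (Sum.inr v : Pl K) = 0 := Finset.sum_eq_zero fun v _ => rfl
  have h2 : ∑ w ∈ T.toLeft, loss (Sum.inl w : Pl K) ≤ lossK K := by
    unfold lossK
    refine Finset.sum_le_sum_of_subset_of_nonneg (Finset.subset_univ _) fun w _ _ => ?_
    exact mul_nonneg (Nat.cast_nonneg _) (Real.log_nonneg (by norm_num))
  rw [h1]
  linarith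

private theorem Pig_min {a b η s : ℝ} (hη : 0 < η) (hs : 0 ≤ s) (hb : -s ≤ b)
    (h : ⌊max 0 a / η⌋₊ = ⌊max 0 b / η⌋₊) : a - η - s ≤ min a b := by
  refine le_min (by linarith) ?_
  have h1 : max 0 a / η < ⌊max 0 a / η⌋₊ + 1 := Nat.lt_floor_add_one _
  have h2 : (⌊max 0 b / η⌋₊ : ℝ) ≤ max 0 b / η :=
    Nat.floor_le (div_nonneg (le_max_left _ _) hη.le)
  rw [h] at h1
  have h3 : max 0 a / η < max 0 b / η + 1 := by linarith
  have h4 : max 0 a < max 0 b + η := by
    have := mul_lt_mul_of_pos_right h3 hη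
    rwa [div_mul_cancel₀ _ hη.ne', add_mul, div_mul_cancel₀ _ hη.ne', one_mul] at this
  have h5 := le_max_right 0 a
  rcases le_total 0 b with hb0 | hb0
  · rw [max_eq_right hb0] at h4
    linarith
  · rw [max_eq_left hb0] at h4
    linarith

/-- the violators in one scale -/
private theorem Pig_scale (h1 : PlacesS) (h3 : PairS) {r q : ℕ} {P : Fin q → ℤ × ℤ}
    {S : Finset ℕ} {κ c c1 b η L : ℝ} {N : ℕ} (hq : 1 ≤ q) (hP0 : ∀ j, P j ≠ 0)
    (hS : ∀ p ∈ S, p.Prime) (hη : 0 < η) (hη1 : η ≤ 1)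
    (hηn : ((r * (S.card + 1) : ℕ) + 2) * η ≤ (κ - 2) / 2)
    (hb : ∀ j, r * Real.log (|((P j).1 : ℝ)| + |((P j).2 : ℝ)|) ≤ b)
    (hN : 3 / η < N) (hL0 : 0 < L) (hL1 : b + r * Real.log 2 ≤ L)
    (hL2 : c + c1 + 3 * (r * Real.log 2) < (κ - 2) / 2 * L)
    (K : Type) [Field K] [NumberField K] (hK : Module.finrank ℚ K = r)
    (hnear : ∀ (T : Finset (Pl K)) (x : K), (∀ j, ((P j).1 : K) - x * ((P j).2 : K) ≠ 0) →
      ∃ J : Pl K → Fin q, ∑ v ∈ T, ∑ j, lam v (aff x) (pt K (P j)) ≤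
      ∑ v ∈ T, lam v (aff x) (pt K (P (J v))) + c1)
    (F : Finset K) (hF : ∀ x ∈ F, (∀ j, ((P j).1 : K) - x * ((P j).2 : K) ≠ 0) ∧
      L ≤ hr (aff x) ∧ hr (aff x) ≤ (1 + η) * L ∧ κ * hr (aff x) ≤ Tot S P x + c) :
    F.card ≤ (q * N) ^ (r * (S.card + 1)) := by
  classical
  obtain ⟨hfin, hcard⟩ := h1 K S hS
  rw [hK] at hcard
  set T := hfin.toFinset with hT
  have hTc : T.card ≤ r * (S.card + 1) := by
    rw [hT, ← Set.ncard_eq_toFinset_card _ hfin]
    exact hcard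
  have hTot : ∀ x : K, Tot S P x = ∑ v ∈ T, ∑ j, lam v (aff x) (pt K (P j)) := by
    intro x
    unfold Tot
    rw [finsum_mem_eq_finite_toFinset_sum _ hfin]
  have : Nonempty (Fin q) := ⟨⟨0, by omega⟩⟩
  have : Nonempty (Pl K → Fin q) := ⟨fun _ => ⟨0, by omega⟩⟩
  choose! J hJ using hnear T
  have hwed : ∀ x : K, (∀ j, ((P j).1 : K) - x * ((P j).2 : K) ≠ 0) → ∀ j,
      (aff x).1 * (pt K (P j)).2 - (aff x).2 * (pt K (P j)).1 ≠ 0 := by
    intro x hx j h
    apply hx j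
    have e : x * ((P j).2 : K) - 1 * ((P j).1 : K) = 0 := h
    linear_combination -e
  have hηL : 0 < η * L := mul_pos hη hL0
  -- the image
  let g : K → (T → Fin q × ℕ) := fun x v =>
    (J x v, ⌊max 0 (lam (v : Pl K) (aff x) (pt K (P (J x v)))) / (η * L)⌋₊)
  have hmaps : Set.MapsTo g F (Fintype.piFinset fun _ : T =>
      (univ : Finset (Fin q)) ×ˢ Finset.range N) := by
    intro x hx
    obtain ⟨hx1, hx2, hx3, hx4⟩ := hF x hx
    rw [Finset.mem_coe, Fintype.mem_piFinset]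
    intro v
    rw [Finset.mem_product]
    refine ⟨Finset.mem_univ _, ?_⟩
    rw [Finset.mem_range]
    show ⌊max 0 (lam (v : Pl K) (aff x) (pt K (P (J x v)))) / (η * L)⌋₊ < N
    rw [Nat.floor_lt (div_nonneg (le_max_left _ _) hηL.le)]
    refine lt_of_le_of_lt ?_ hN
    have e1 := sum_lam_le (aff_ne_zero x) (Pig_pt_ne (K := K) (hP0 (J x v))) (hwed x hx1 _)
      {(v : Pl K)}
    rw [Finset.sum_singleton, Pig_lossK, hK] at e1
    have e2 := Pig_hr_pt K (hP0 (J x v))
    rw [hK] at e2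
    have e3 := hb (J x v)
    have e4 : lam (v : Pl K) (aff x) (pt K (P (J x v))) ≤ 3 * L := by nlinarith
    have e5 : max 0 (lam (v : Pl K) (aff x) (pt K (P (J x v)))) ≤ 3 * L :=
      max_le (by linarith) e4
    rw [div_le_div_iff₀ hηL hη]
    nlinarith
  have hinj : Set.InjOn g F := by
    intro x hx y hy hxy
    by_contra hne
    obtain ⟨hx1, hx2, hx3, hx4⟩ := hF x hx
    obtain ⟨hy1, hy2, hy3, hy4⟩ := hF y hy
    have hJv : ∀ v ∈ T, J x v = J y v := fun v hv => congrArg Prod.fst (congrFun hxy ⟨v, hv⟩)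
    have hfl : ∀ v ∈ T, ⌊max 0 (lam v (aff x) (pt K (P (J x v)))) / (η * L)⌋₊ =
        ⌊max 0 (lam v (aff y) (pt K (P (J x v)))) / (η * L)⌋₊ := by
      intro v hv
      have e1 : ⌊max 0 (lam v (aff x) (pt K (P (J x v)))) / (η * L)⌋₊ =
        ⌊max 0 (lam v (aff y) (pt K (P (J y v)))) / (η * L)⌋₊ :=
        congrArg Prod.snd (congrFun hxy ⟨v, hv⟩)
      rw [e1, hJv v hv]
    have a1 := h3 K T (fun v => pt K (P (J x v))) x y hne (fun v _ => Pig_pt_ne (hP0 _))
      (fun v _ => hwed x hx1 _) (fun v _ => hwed y hy1 _)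
    have a2 : ∑ v ∈ T, (lam v (aff x) (pt K (P (J x v))) - η * L - loss v) ≤
        ∑ v ∈ T, min (lam v (aff x) (pt K (P (J x v)))) (lam v (aff y) (pt K (P (J x v)))) := by
      refine Finset.sum_le_sum fun v hv => ?_
      exact Pig_min hηL (loss_nonneg v) (lam_ge v (aff_ne_zero y) (Pig_pt_ne (hP0 _))
        (hwed y hy1 _)) (hfl v hv)
    rw [Finset.sum_sub_distrib, Finset.sum_sub_distrib, Finset.sum_const, nsmul_eq_mul] at a2
    have a3 := hJ x hx1
    rw [← hTot] at a3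
    have a4 := Pig_sum_loss T
    rw [Pig_lossK, hK] at a4
    rw [hK] at a1
    have a5 : (T.card : ℝ) * (η * L) ≤ (r * (S.card + 1) : ℕ) * (η * L) :=
      mul_le_mul_of_nonneg_right (by exact_mod_cast hTc) hηL.le
    have a6 := mul_le_mul_of_nonneg_right hηn hL0.le
    have hκ : 0 < κ := by
      have : 0 < ((r * (S.card + 1) : ℕ) + 2 : ℝ) * η := by positivity
      linarith
    have a7 : κ * L ≤ κ * hr (aff x) := mul_le_mul_of_nonneg_left hx2 hκ.le
    nlinarith
  have h4 := Finset.card_le_card_of_injOn g hmaps hinj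
  refine h4.trans ?_
  rw [Fintype.card_piFinset, Finset.prod_const, Finset.card_product]
  simp only [Finset.card_univ, Fintype.card_fin, Finset.card_range, Fintype.card_coe]
  have hN1 : 1 ≤ N := by
    have : (0 : ℝ) < N := lt_trans (by positivity) hN
    exact_mod_cast this
  exact Nat.pow_le_pow_right (Nat.mul_pos (by omega) (by omega)) hTc

theorem perField (h1 : PlacesS) (h2 : NearS) (h3 : PairS) : PerField := by
  classical
  intro r q P S κ c hq hPw hP0 hS hκ
  obtain ⟨c1, hc1, hnear⟩ := h2 r q P hq hPw hP0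
  have hl2 : 0 ≤ Real.log 2 := Real.log_nonneg (by norm_num)
  set n : ℕ := r * (S.card + 1) with hn
  set b : ℝ := ∑ j, r * Real.log (|((P j).1 : ℝ)| + |((P j).2 : ℝ)|) with hb
  have hbj : ∀ j, r * Real.log (|((P j).1 : ℝ)| + |((P j).2 : ℝ)|) ≤ b := fun j =>
    Finset.single_le_sum (f := fun j => r * Real.log (|((P j).1 : ℝ)| + |((P j).2 : ℝ)|))
      (fun j _ => mul_nonneg (Nat.cast_nonneg _) (Pig_log_nonneg (hP0 j))) (Finset.mem_univ j)
  have hb0 : 0 ≤ b := Finset.sum_nonneg fun j _ =>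
    mul_nonneg (Nat.cast_nonneg _) (Pig_log_nonneg (hP0 j))
  have hn0 : (0 : ℝ) < (n : ℝ) + 2 := by positivity
  set η : ℝ := min 1 ((κ - 2) / (2 * ((n : ℝ) + 2))) with hη
  have hκ2 : 0 < κ - 2 := by linarith
  have hη0 : 0 < η := lt_min one_pos (div_pos hκ2 (by positivity))
  have hη1 : η ≤ 1 := min_le_left _ _
  have hηn : ((n : ℝ) + 2) * η ≤ (κ - 2) / 2 := by
    calc ((n : ℝ) + 2) * η ≤ ((n : ℝ) + 2) * ((κ - 2) / (2 * ((n : ℝ) + 2))) :=
          mul_le_mul_of_nonneg_left (min_le_right _ _) hn0.le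
      _ = (κ - 2) / 2 := by field_simp
  obtain ⟨N, hN⟩ := exists_nat_gt (3 / η)
  set L₀ : ℝ := 1 + (b + r * Real.log 2) + 2 * (|c| + c1 + 3 * (r * Real.log 2)) / (κ - 2)
    with hL₀
  have hr2 : 0 ≤ (r : ℝ) * Real.log 2 := by positivity
  have hq1 : 0 ≤ 2 * (|c| + c1 + 3 * (r * Real.log 2)) / (κ - 2) := by positivity
  have hL1 : 1 ≤ L₀ := by linarith
  have hL0 : 0 < L₀ := by linarith
  have hlg : 0 < Real.log (1 + η) := Real.log_pos (by linarith)
  refine ⟨L₀, (q * N : ℕ) ^ n * (1 + 1 / Real.log (1 + η)), hL0.le, by positivity, ?_⟩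
  intro K _ _ hK H E hH hE
  have hlH : 0 ≤ Real.log H := Real.log_nonneg hH
  -- the index of the scale
  let f : K → ℕ := fun x => ⌊Real.log (hr (aff x) / L₀) / Real.log (1 + η)⌋₊
  have hfE : ∀ x ∈ E, f x ∈ Finset.range (⌊Real.log H / Real.log (1 + η)⌋₊ + 1) := by
    intro x hx
    obtain ⟨_, hx2, hx3, _⟩ := hE x hx
    rw [Finset.mem_range, Nat.lt_succ_iff]
    refine Nat.floor_le_floor (div_le_div_of_nonneg_right ?_ hlg.le)
    refine Real.log_le_log (div_pos (by linarith) hL0) ?_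
    rw [div_le_iff₀ hL0]
    nlinarith
  have hcount := Finset.card_le_mul_card_image_of_maps_to hfE ((q * N) ^ n) (by
    intro i _
    refine Pig_scale h1 h3 (κ := κ) (c := c) (c1 := c1) (b := b) (η := η)
      (L := L₀ * (1 + η) ^ i) (N := N) hq hP0 hS hη0 hη1 hηn hbj hN (by positivity) ?_ ?_ K hK
      (hnear K hK) _ ?_
    · have e1 : 1 ≤ (1 + η) ^ i := one_le_pow₀ (by linarith)
      nlinarith
    · have e1 : 1 ≤ (1 + η) ^ i := one_le_pow₀ (by linarith)
      have e2 : L₀ ≤ L₀ * (1 + η) ^ i := by nlinarith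
      have e3 : 2 * (|c| + c1 + 3 * (r * Real.log 2)) / (κ - 2) < L₀ := by linarith
      rw [div_lt_iff₀ hκ2] at e3
      have e4 := le_abs_self c
      nlinarith
    · intro x hx
      rw [Finset.mem_filter] at hx
      obtain ⟨hxE, hxi⟩ := hx
      obtain ⟨hx1, hx2, hx3, hx4⟩ := hE x hxE
      have hpos : 0 < hr (aff x) / L₀ := div_pos (by linarith) hL0
      have hl0 : 0 ≤ Real.log (hr (aff x) / L₀) / Real.log (1 + η) := by
        refine div_nonneg (Real.log_nonneg ?_) hlg.le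
        rwa [le_div_iff₀ hL0, one_mul]
      have e1 : (i : ℝ) ≤ Real.log (hr (aff x) / L₀) / Real.log (1 + η) := by
        rw [← hxi]
        exact Nat.floor_le hl0
      have e2 : Real.log (hr (aff x) / L₀) / Real.log (1 + η) < (i : ℝ) + 1 := by
        rw [← hxi]
        exact Nat.lt_floor_add_one _
      rw [le_div_iff₀ hlg, ← Real.log_pow] at e1
      rw [div_lt_iff₀ hlg] at e2
      have e3 : ((i : ℝ) + 1) * Real.log (1 + η) = Real.log ((1 + η) ^ (i + 1)) := by
        rw [Real.log_pow]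
        push_cast
        ring
      rw [e3] at e2
      have e4 := (Real.log_le_log_iff (by positivity) hpos).1 e1
      have e5 := (Real.log_lt_log_iff hpos (by positivity)).1 e2
      rw [le_div_iff₀ hL0] at e4
      rw [div_lt_iff₀ hL0, pow_succ] at e5
      refine ⟨hx1, by linarith, ?_, hx4⟩
      nlinarith)
  rw [Finset.card_range] at hcount
  have h5 : (E.card : ℝ) ≤ (q * N : ℕ) ^ n * (⌊Real.log H / Real.log (1 + η)⌋₊ + 1) := by
    exact_mod_cast hcount
  refine h5.trans ?_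
  rw [mul_assoc]
  refine mul_le_mul_of_nonneg_left ?_ (by positivity)
  have h6 : (⌊Real.log H / Real.log (1 + η)⌋₊ : ℝ) ≤ Real.log H / Real.log (1 + η) :=
    Nat.floor_le (div_nonneg hlH hlg.le)
  have h7 : (1 + 1 / Real.log (1 + η)) * (1 + Real.log H) =
      1 + Real.log H / Real.log (1 + η) + (Real.log H + 1 / Real.log (1 + η)) := by
    field_simp
    ring
  have h8 : 0 ≤ 1 / Real.log (1 + η) := by positivity
  rw [h7]
  linarith

end Pool.Agent.TH876.QR
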