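import Mathlib
import Pool.Agent.TH876.QR.Def

set_option autoImplicit false

/-!
# The number of places above a finite set of primes
-/

namespace Pool.Agent.TH876.QR

open NumberField IsDedekindDomain Pool.Agent.H691R3 Pool.Agent.TH876.Loc

theorem places2_over_le {K : Type} [Field K] [NumberField K] (m : ℕ) (hm : m.Prime) :
    {v : HeightOneSpectrum (𝓞 K) | (m : 𝓞 K) ∈ v.asIdeal}.Finite ∧
    {v : HeightOneSpectrum (𝓞 K) | (m : 𝓞 K) ∈ v.asIdeal}.ncard ≤ Module.finrank ℚ K := by
  classical
  have hm0 : (m : ℤ) ≠ 0 := by exact_mod_cast hm.ne_zero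
  haveI hmax : (Ideal.span {(m : ℤ)}).IsMaximal :=
    PrincipalIdealRing.isMaximal_of_irreducible (Nat.prime_iff_prime_int.mp hm).irreducible
  have hne : Ideal.span {(m : ℤ)} ≠ ⊥ := by
    rw [Ne, Ideal.span_singleton_eq_bot]; exact hm0
  have hsub : HeightOneSpectrum.asIdeal '' {v : HeightOneSpectrum (𝓞 K) | (m : 𝓞 K) ∈ v.asIdeal} ⊆
      (IsDedekindDomain.primesOverFinset (Ideal.span {(m : ℤ)}) (𝓞 K) : Set (Ideal (𝓞 K))) := by
    rintro I ⟨v, hv, rfl⟩
    rw [Finset.mem_coe, IsDedekindDomain.mem_primesOverFinset_iff hne]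
    refine ⟨v.isPrime, ⟨?_⟩⟩
    apply hmax.eq_of_le
    · haveI := v.isPrime
      exact (Ideal.comap_isPrime (algebraMap ℤ (𝓞 K)) v.asIdeal).ne_top
    · rw [Ideal.span_le, Set.singleton_subset_iff, SetLike.mem_coe, Ideal.under_def, Ideal.mem_comap]
      simpa using hv
  have hinj : Set.InjOn HeightOneSpectrum.asIdeal
      {v : HeightOneSpectrum (𝓞 K) | (m : 𝓞 K) ∈ v.asIdeal} :=
    fun v _ w _ h => HeightOneSpectrum.ext h
  refine ⟨Set.Finite.of_finite_image ((Finset.finite_toSet _).subset hsub) hinj, ?_⟩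
  rw [← Set.ncard_image_of_injOn hinj]
  refine (Set.ncard_le_ncard hsub (Finset.finite_toSet _)).trans ?_
  rw [Set.ncard_coe_finset]
  exact Ideal.card_primesOverFinset_le_finrank (𝓞 K) ℚ K hne

theorem places2 : PlacesS := by
  classical
  intro K _ _ S hS
  have hset : Pls K S = Sum.inl '' (Set.univ : Set (InfinitePlace K)) ∪
      Sum.inr '' (⋃ p ∈ S, {v : HeightOneSpectrum (𝓞 K) | (p : 𝓞 K) ∈ v.asIdeal}) := by
    ext v
    rcases v with w | u
    · simp only [Pls, Set.mem_ofPred_eq, Set.mem_union, Set.mem_image]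
      refine ⟨fun _ => Or.inl ⟨w, Set.mem_univ _, rfl⟩, fun _ u h => by simp at h⟩
    · simp only [Pls, Set.mem_ofPred_eq, Set.mem_union, Set.mem_image, Set.mem_iUnion, exists_prop]
      constructor
      · intro h
        exact Or.inr ⟨u, h u rfl, rfl⟩
      · rintro (⟨w, _, h⟩ | ⟨w, h, h'⟩)
        · simp at h
        · intro u' h2
          rw [← h'] at h2
          rw [← Sum.inr_injective h2]
          exact h
  have hfin : (⋃ p ∈ S, {v : HeightOneSpectrum (𝓞 K) | (p : 𝓞 K) ∈ v.asIdeal}).Finite :=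
    Set.Finite.biUnion S.finite_toSet fun p hp => (places2_over_le p (hS p hp)).1
  refine ⟨?_, ?_⟩
  · rw [hset]
    exact (Set.finite_univ.image _).union (hfin.image _)
  · rw [hset]
    refine (Set.ncard_union_le _ _).trans ?_
    have h1 : (Sum.inl '' (Set.univ : Set (InfinitePlace K)) : Set (Pl K)).ncard ≤
        Module.finrank ℚ K := by
      rw [Set.ncard_image_of_injective _ Sum.inl_injective, Set.ncard_univ, Nat.card_eq_fintype_card]
      have h2 := InfinitePlace.sum_mult_eq (K := K)
      calc Fintype.card (InfinitePlace K) = ∑ _w : InfinitePlace K, 1 := by simp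
        _ ≤ ∑ w : InfinitePlace K, w.mult :=
            Finset.sum_le_sum fun w _ => InfinitePlace.mult_pos
        _ = Module.finrank ℚ K := h2
    have h2 : (Sum.inr '' (⋃ p ∈ S, {v : HeightOneSpectrum (𝓞 K) | (p : 𝓞 K) ∈ v.asIdeal}) :
        Set (Pl K)).ncard ≤ S.card * Module.finrank ℚ K := by
      rw [Set.ncard_image_of_injective _ Sum.inr_injective]
      have h3 : ∀ T : Finset ℕ, (∀ p ∈ T, p.Prime) →
          (⋃ p ∈ T, {v : HeightOneSpectrum (𝓞 K) | (p : 𝓞 K) ∈ v.asIdeal}).ncard ≤
            T.card * Module.finrank ℚ K := by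
        intro T
        induction T using Finset.induction_on with
        | empty => simp
        | insert p T hp ih =>
          intro hT
          rw [Finset.set_biUnion_insert, Finset.card_insert_of_notMem hp]
          refine (Set.ncard_union_le _ _).trans ?_
          have h4 := (places2_over_le (K := K) p (hT p (Finset.mem_insert_self _ _))).2
          have h5 := ih fun q hq => hT q (Finset.mem_insert_of_mem hq)
          nlinarith
      exact h3 S hS
    have h3 : Module.finrank ℚ K * (S.card + 1) = Module.finrank ℚ K +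
        S.card * Module.finrank ℚ K := by ring
    omega

end Pool.Agent.TH876.QR
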