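import Mathlib
import Pool.Agent.TH876.QR.Def

set_option autoImplicit false

namespace Pool.Agent.TH876.QR

open NumberField IsDedekindDomain Finset Polynomial IntermediateField
open Pool.Agent.H691R3 Pool.Agent.TH876.Loc
open Pool.Agent.H813R3.Voj (value rho mahler)

set_option linter.deprecated false in
private lemma Places_card (K : Type) [Field K] [NumberField K] (p : ℕ) (hp : p.Prime) :
    #(IsDedekindDomain.primesOverFinset (Ideal.span {(p : ℤ)}) (𝓞 K)) ≤ Module.finrank ℚ K := by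
  have hpi : Prime (p : ℤ) := Nat.prime_iff_prime_int.mp hp
  have h0 : Ideal.span {(p : ℤ)} ≠ ⊥ := by
    rw [Ne, Ideal.span_singleton_eq_bot]
    exact hpi.ne_zero
  have hpr : (Ideal.span {(p : ℤ)}).IsPrime := (Ideal.span_singleton_prime hpi.ne_zero).mpr hpi
  have hmax : (Ideal.span {(p : ℤ)}).IsMaximal := hpr.isMaximal h0
  exact Ideal.card_primesOverFinset_le_finrank (𝓞 K) ℚ K h0

private lemma Places_mem (K : Type) [Field K] [NumberField K] (p : ℕ) (hp : p.Prime)
    (u : HeightOneSpectrum (𝓞 K)) (hu : (p : 𝓞 K) ∈ u.asIdeal) :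
    u.asIdeal ∈ IsDedekindDomain.primesOverFinset (Ideal.span {(p : ℤ)}) (𝓞 K) := by
  have hpi : Prime (p : ℤ) := Nat.prime_iff_prime_int.mp hp
  have h0 : Ideal.span {(p : ℤ)} ≠ ⊥ := by
    rw [Ne, Ideal.span_singleton_eq_bot]
    exact hpi.ne_zero
  have hpr : (Ideal.span {(p : ℤ)}).IsPrime := (Ideal.span_singleton_prime hpi.ne_zero).mpr hpi
  have hmax : (Ideal.span {(p : ℤ)}).IsMaximal := hpr.isMaximal h0
  rw [IsDedekindDomain.mem_primesOverFinset_iff h0]
  refine ⟨u.isPrime, ⟨?_⟩⟩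
  have hup := u.isPrime
  refine hmax.eq_of_le ?_ ?_
  · exact (Ideal.IsPrime.under ℤ u.asIdeal).ne_top
  · rw [Ideal.span_singleton_le_iff_mem]
    show (algebraMap ℤ (𝓞 K)) (p : ℤ) ∈ u.asIdeal
    simpa using hu

theorem places : PlacesS := by
  classical
  intro K _ _ S hS
  let F : ℕ → Finset (Ideal (𝓞 K)) :=
    fun p => IsDedekindDomain.primesOverFinset (Ideal.span {(p : ℤ)}) (𝓞 K)
  let T : Finset (InfinitePlace K ⊕ Ideal (𝓞 K)) :=
    (Finset.univ : Finset (InfinitePlace K)).disjSum (S.biUnion F)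
  let f : Pl K → InfinitePlace K ⊕ Ideal (𝓞 K) := Sum.map id (fun u => u.asIdeal)
  have hf : Function.Injective f := by
    apply Sum.map_injective.mpr
    exact ⟨Function.injective_id, fun u v h => HeightOneSpectrum.ext h⟩
  have hmaps : ∀ v ∈ Pls K S, f v ∈ (T : Set (InfinitePlace K ⊕ Ideal (𝓞 K))) := by
    rintro (v | u) hv
    · simp [f, T]
    · obtain ⟨p, hp, hu⟩ := hv u rfl
      simp only [f, T, Sum.map_inr, Finset.mem_coe, Finset.inr_mem_disjSum, Finset.mem_biUnion]
      exact ⟨p, hp, Places_mem K p (hS p hp) u hu⟩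
  have hfin : (Pls K S).Finite :=
    Set.Finite.of_injOn (f := f) (t := (T : Set _)) (fun v hv => hmaps v hv) hf.injOn
      T.finite_toSet
  refine ⟨hfin, ?_⟩
  have h1 : (Pls K S).ncard ≤ (T : Set (InfinitePlace K ⊕ Ideal (𝓞 K))).ncard :=
    Set.ncard_le_ncard_of_injOn f hmaps hf.injOn T.finite_toSet
  rw [Set.ncard_coe_finset] at h1
  have h2 : #T = Fintype.card (InfinitePlace K) + #(S.biUnion F) := by
    rw [Finset.card_disjSum, Finset.card_univ]
  have h3 : #(S.biUnion F) ≤ #S * Module.finrank ℚ K :=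
    Finset.card_biUnion_le_card_mul _ _ _ fun p hp => Places_card K p (hS p hp)
  have h4 : Fintype.card (InfinitePlace K) ≤ Module.finrank ℚ K := by
    rw [← InfinitePlace.sum_mult_eq (K := K), ← Finset.card_univ, Finset.card_eq_sum_ones]
    exact Finset.sum_le_sum fun v _ => InfinitePlace.mult_pos
  calc (Pls K S).ncard ≤ Module.finrank ℚ K + #S * Module.finrank ℚ K := by omega
    _ = Module.finrank ℚ K * (#S + 1) := by ring

end Pool.Agent.TH876.QR
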